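import Mathlib
set_option autoImplicit false

/-!
Minors of circulant matrices.
-/

namespace Pool.Agent.TH826.HD

open Finset ZMod

section circ

variable {n : ℕ} [NeZero n]

theorem circ_sum (u q : ZMod n → ℂ) (j : ZMod n) :
    ∑ l, stdAddChar (j * l) * ∑ m, u m * q (m - l) =
      (∑ m, stdAddChar (j * m) * u m) * ZMod.dft q j := by
  simp only [mul_sum]
  rw [sum_comm, sum_mul]
  refine sum_congr rfl fun m _ => ?_
  rw [ZMod.dft_apply, mul_sum]
  refine Fintype.sum_equiv (Equiv.subLeft m) _ _ fun l => ?_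
  rw [Equiv.subLeft_apply, smul_eq_mul]
  have h : stdAddChar (j * m) * stdAddChar (-((m - l) * j)) = (stdAddChar (j * l) : ℂ) := by
    rw [← AddChar.map_add_eq_mul]
    congr 1
    ring
  rw [← h]
  ring

end circ

section minor

variable {g : ℕ}

/-- the bijection between `Fin n` and `ZMod n` -/
def finZ (n : ℕ) [NeZero n] : Fin n ≃ ZMod n where
  toFun i := ((i : ℕ) : ZMod n)
  invFun m := ⟨m.val, ZMod.val_lt m⟩
  left_inv i := Fin.ext (ZMod.val_natCast_of_lt i.2)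
  right_inv m := ZMod.natCast_zmod_val m

theorem sum_fin (f : ZMod (2 * g + 2) → ℂ) :
    ∑ m, f m = ∑ i : Fin (2 * g + 2), f (((i : ℕ)) : ZMod (2 * g + 2)) :=
  (Equiv.sum_comp (finZ (2 * g + 2)) f).symm

theorem sum_split (f : ZMod (2 * g + 2) → ℂ) : ∑ m, f m =
    f 0 + (∑ k : Fin (2 * g), f (((k : ℕ) + 1 : ℕ) : ZMod (2 * g + 2))) +
      f (((2 * g + 1 : ℕ)) : ZMod (2 * g + 2)) := by
  rw [sum_fin, Fin.sum_univ_succ, Fin.sum_univ_castSucc]
  simp only [Fin.val_zero, Nat.cast_zero, Fin.val_succ, Fin.val_castSucc, Fin.val_last]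
  rw [add_assoc]

theorem stdAddChar_half : (stdAddChar (((g + 1 : ℕ)) : ZMod (2 * g + 2)) : ℂ) = -1 := by
  have h := stdAddChar_coe (N := 2 * g + 2) ((g + 1 : ℕ) : ℤ)
  rw [Int.cast_natCast] at h
  rw [h]
  have e : 2 * (Real.pi : ℂ) * Complex.I * (((g + 1 : ℕ) : ℤ) : ℂ) / ((2 * g + 2 : ℕ) : ℂ) =
      Real.pi * Complex.I := by
    have h0 : ((g : ℂ) + 1) ≠ 0 := by exact_mod_cast Nat.succ_ne_zero g
    push_cast
    have h1 : (2 * (g : ℂ) + 2) ≠ 0 := by
      have : (2 * (g : ℂ) + 2) = 2 * ((g : ℂ) + 1) := by ring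
      rw [this]
      exact mul_ne_zero two_ne_zero h0
    field_simp
  rw [e, Complex.exp_pi_mul_I]

theorem circ_det (q : ZMod (2 * g + 2) → ℝ)
    (hq : ∀ j : ZMod (2 * g + 2), j ≠ 0 → j ≠ ((g + 1 : ℕ) : ZMod (2 * g + 2)) →
      ZMod.dft (fun m => (q m : ℂ)) j ≠ 0)
    (hqN : ZMod.dft (fun m => (q m : ℂ)) ((g + 1 : ℕ) : ZMod (2 * g + 2)) = 0) :
    (Matrix.of fun l k : Fin (2 * g) =>
      q ((((k : ℕ) + 1 : ℕ) : ZMod (2 * g + 2)) - ((l : ℕ) : ZMod (2 * g + 2))) -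
      q (0 - ((l : ℕ) : ZMod (2 * g + 2)))).det ≠ 0 := by
  intro hdet
  obtain ⟨v, hv0, hv⟩ := Matrix.exists_mulVec_eq_zero_iff.2 hdet
  apply hv0
  obtain ⟨u, hu0, huk, hul⟩ : ∃ u : ZMod (2 * g + 2) → ℂ, u 0 = -∑ k, (v k : ℂ) ∧
      (∀ k : Fin (2 * g), u (((k : ℕ) + 1 : ℕ) : ZMod (2 * g + 2)) = v k) ∧
      u (((2 * g + 1 : ℕ)) : ZMod (2 * g + 2)) = 0 := by
    refine ⟨fun m => (Fin.cons (-∑ k, (v k : ℂ)) (Fin.snoc (fun k => (v k : ℂ)) 0 :
      Fin (2 * g + 1) → ℂ) : Fin (2 * g + 2) → ℂ) ((finZ (2 * g + 2)).symm m), ?_, ?_, ?_⟩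
    · have e : (finZ (2 * g + 2)).symm 0 = 0 := by
        rw [Equiv.symm_apply_eq]
        simp [finZ]
      simp only [e]
      rfl
    · intro k
      have e : (finZ (2 * g + 2)).symm (((k : ℕ) + 1 : ℕ) : ZMod (2 * g + 2)) =
          k.castSucc.succ := by
        rw [Equiv.symm_apply_eq]
        simp [finZ]
      simp only [e]
      rw [Fin.cons_succ, Fin.snoc_castSucc]
    · have e : (finZ (2 * g + 2)).symm (((2 * g + 1 : ℕ)) : ZMod (2 * g + 2)) =
          (Fin.last (2 * g)).succ := by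
        rw [Equiv.symm_apply_eq]
        simp [finZ]
      simp only [e]
      rw [Fin.cons_succ, Fin.snoc_last]
  set r : ZMod (2 * g + 2) → ℂ := fun l => ∑ m, u m * (q (m - l) : ℂ) with hr
  have hrl : ∀ l : Fin (2 * g), r ((l : ℕ) : ZMod (2 * g + 2)) = 0 := by
    intro l
    have h1 := congrFun hv l
    rw [Matrix.mulVec_eq_sum] at h1
    simp only [Finset.sum_apply, Pi.smul_apply, Matrix.transpose_apply, Matrix.of_apply,
      Pi.zero_apply] at h1
    simp only [hr]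
    rw [sum_split, hu0, hul, zero_mul, add_zero]
    simp only [huk]
    have h2 := congrArg (fun x : ℝ => (x : ℂ)) h1
    simp only [Complex.ofReal_sum, Complex.ofReal_zero] at h2
    rw [← h2, neg_mul, sum_mul, neg_add_eq_sub, ← sum_sub_distrib]
    refine sum_congr rfl fun k _ => ?_
    simp only [op_smul_eq_mul]
    push_cast
    ring
  have hsum_u : ∑ m, u m = 0 := by
    rw [sum_split, hu0, hul, add_zero]
    simp only [huk]
    ring
  have hc := fun j => circ_sum u (fun m => (q m : ℂ)) j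
  have hr' : ∀ j, ∑ l, stdAddChar (j * l) * r l =
      (∑ m, stdAddChar (j * m) * u m) * ZMod.dft (fun m => (q m : ℂ)) j := hc
  -- the values at the last two points
  have hlast : r (((2 * g : ℕ)) : ZMod (2 * g + 2)) +
      r (((2 * g + 1 : ℕ)) : ZMod (2 * g + 2)) = 0 ∧
      r (((2 * g : ℕ)) : ZMod (2 * g + 2)) - r (((2 * g + 1 : ℕ)) : ZMod (2 * g + 2)) = 0 := by
    have hs : ∀ w : ZMod (2 * g + 2) → ℂ, ∑ l, w l * r l =
        w (((2 * g : ℕ)) : ZMod (2 * g + 2)) * r (((2 * g : ℕ)) : ZMod (2 * g + 2)) +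
        w (((2 * g + 1 : ℕ)) : ZMod (2 * g + 2)) * r (((2 * g + 1 : ℕ)) : ZMod (2 * g + 2)) := by
      intro w
      rw [sum_fin, Fin.sum_univ_castSucc, Fin.sum_univ_castSucc]
      simp only [Fin.val_castSucc, Fin.val_last]
      rw [Finset.sum_eq_zero, zero_add]
      intro i _
      rw [hrl, mul_zero]
    constructor
    · have h1 := hr' 0
      simp only [zero_mul, AddChar.map_zero_eq_one, one_mul] at h1
      rw [hsum_u, zero_mul] at h1
      have h2 := hs fun _ => 1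
      simp only [one_mul] at h2
      rw [← h2, h1]
    · have h1 := hr' ((g + 1 : ℕ) : ZMod (2 * g + 2))
      rw [hqN, mul_zero, hs fun l => stdAddChar (((g + 1 : ℕ) : ZMod (2 * g + 2)) * l)] at h1
      have e1 : (((g + 1 : ℕ) : ZMod (2 * g + 2)) * ((2 * g : ℕ) : ZMod (2 * g + 2))) =
          0 := by
        have h0 : ((2 * g + 2 : ℕ) : ZMod (2 * g + 2)) = 0 := ZMod.natCast_self _
        have : (((g + 1 : ℕ) : ZMod (2 * g + 2)) * ((2 * g : ℕ) : ZMod (2 * g + 2))) =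
            ((2 * g + 2 : ℕ) : ZMod (2 * g + 2)) * (g : ZMod (2 * g + 2)) := by
          push_cast
          ring
        rw [this, h0, zero_mul]
      have e2 : (((g + 1 : ℕ) : ZMod (2 * g + 2)) * ((2 * g + 1 : ℕ) : ZMod (2 * g + 2))) =
          ((g + 1 : ℕ) : ZMod (2 * g + 2)) := by
        have : (((g + 1 : ℕ) : ZMod (2 * g + 2)) * ((2 * g + 1 : ℕ) : ZMod (2 * g + 2))) =
            (((g + 1 : ℕ) : ZMod (2 * g + 2)) * ((2 * g : ℕ) : ZMod (2 * g + 2))) +
            ((g + 1 : ℕ) : ZMod (2 * g + 2)) := by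
          push_cast
          ring
        rw [this, e1, zero_add]
      simp only [e1, e2, AddChar.map_zero_eq_one, one_mul, stdAddChar_half] at h1
      linear_combination h1
  have hr0 : ∀ l, r l = 0 := by
    obtain ⟨h1, h2⟩ := hlast
    have h3 : r (((2 * g : ℕ)) : ZMod (2 * g + 2)) = 0 := by linear_combination (h1 + h2) / 2
    have h4 : r (((2 * g + 1 : ℕ)) : ZMod (2 * g + 2)) = 0 := by linear_combination (h1 - h2) / 2
    intro l
    have h5 : ∀ i : Fin (2 * g + 2), r (((i : ℕ)) : ZMod (2 * g + 2)) = 0 := by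
      intro i
      refine Fin.lastCases ?_ (fun i => ?_) i
      · rw [Fin.val_last]; exact h4
      · refine Fin.lastCases ?_ (fun i => ?_) i
        · rw [Fin.val_castSucc, Fin.val_last]; exact h3
        · rw [Fin.val_castSucc, Fin.val_castSucc]; exact hrl i
    have h6 := h5 ((finZ (2 * g + 2)).symm l)
    have h7 : ((((finZ (2 * g + 2)).symm l : Fin (2 * g + 2)) : ℕ) : ZMod (2 * g + 2)) = l :=
      (finZ (2 * g + 2)).apply_symm_apply l
    rwa [h7] at h6
  have hhat : ∀ j : ZMod (2 * g + 2), j ≠ ((g + 1 : ℕ) : ZMod (2 * g + 2)) →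
      ∑ m, stdAddChar (j * m) * u m = 0 := by
    intro j hj
    by_cases hj0 : j = 0
    · rw [hj0]
      simp only [zero_mul, AddChar.map_zero_eq_one, one_mul]
      exact hsum_u
    · have h1 := hr' j
      simp only [hr0, mul_zero, Finset.sum_const_zero] at h1
      exact (mul_eq_zero.1 h1.symm).resolve_right (hq j hj0 hj)
  have hdft : ∀ j : ZMod (2 * g + 2), j ≠ ((g + 1 : ℕ) : ZMod (2 * g + 2)) →
      ZMod.dft u j = 0 := by
    intro j hj
    rw [ZMod.dft_apply, ← hhat (-j) ?_]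
    · refine sum_congr rfl fun m _ => ?_
      rw [smul_eq_mul]
      congr 2
      ring
    · intro h
      apply hj
      have h0 : ((2 * g + 2 : ℕ) : ZMod (2 * g + 2)) = 0 := ZMod.natCast_self _
      have h1 : ((g + 1 : ℕ) : ZMod (2 * g + 2)) = -((g + 1 : ℕ) : ZMod (2 * g + 2)) := by
        rw [eq_neg_iff_add_eq_zero, ← h0]
        push_cast
        ring
      rw [h1, ← h, neg_neg]
  have hinv : ∀ m, u m = (((2 * g + 2 : ℕ)) : ℂ)⁻¹ *
      (stdAddChar (((g + 1 : ℕ) : ZMod (2 * g + 2)) * m) *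
        ZMod.dft u ((g + 1 : ℕ) : ZMod (2 * g + 2))) := by
    intro m
    have h1 : u m = ZMod.dft.symm (ZMod.dft u) m := by rw [LinearEquiv.symm_apply_apply]
    rw [h1, ZMod.invDFT_apply, Finset.sum_eq_single ((g + 1 : ℕ) : ZMod (2 * g + 2))]
    · rw [smul_eq_mul, smul_eq_mul]
    · intro j _ hj
      rw [hdft j hj, smul_zero]
    · intro h
      exact absurd (Finset.mem_univ _) h
  have hN0 : ZMod.dft u ((g + 1 : ℕ) : ZMod (2 * g + 2)) = 0 := by
    have h1 := hinv (((2 * g + 1 : ℕ)) : ZMod (2 * g + 2))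
    rw [hul] at h1
    have h2 : (((2 * g + 2 : ℕ)) : ℂ)⁻¹ ≠ 0 :=
      inv_ne_zero (by exact_mod_cast Nat.succ_ne_zero (2 * g + 1))
    have h3 := (mul_eq_zero.1 h1.symm).resolve_left h2
    refine (mul_eq_zero.1 h3).resolve_left ?_
    rw [stdAddChar_apply]
    exact Circle.coe_ne_zero _
  funext k
  have h1 := hinv (((k : ℕ) + 1 : ℕ) : ZMod (2 * g + 2))
  rw [hN0, mul_zero, mul_zero, huk] at h1
  exact_mod_cast h1

end minor

end Pool.Agent.TH826.HD
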