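import Pool.Agent.TH826.HD.Ref
import Pool.Agent.TH826.HD.Circ
set_option autoImplicit false

/-!
The Fourier transform of the regulators of the curve `z + 1/z = y ^ (g + 1)`.
-/

namespace Pool.Agent.TH826.HD

open MeasureTheory ZMod Finset

open scoped Real ComplexConjugate

section four

variable (g : ℕ)

/-- the `(2 g + 2)`-th roots of unity -/
noncomputable def ch (m : ZMod (2 * g + 2)) : ℂ := stdAddChar m

theorem ch_add (m n : ZMod (2 * g + 2)) : ch g (m + n) = ch g m * ch g n :=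
  AddChar.map_add_eq_mul _ _ _

theorem ch_zero : ch g 0 = 1 := AddChar.map_zero_eq_one _

theorem ch_neg (m : ZMod (2 * g + 2)) : ch g (-m) = conj (ch g m) :=
  AddChar.map_neg_eq_conj _ _

theorem norm_ch (m : ZMod (2 * g + 2)) : ‖ch g m‖ = 1 := by
  unfold ch
  rw [stdAddChar_apply]
  exact Circle.norm_coe _

theorem ch_ne_zero (m : ZMod (2 * g + 2)) : ch g m ≠ 0 := by
  intro h
  have := norm_ch g m
  rw [h, norm_zero] at this
  exact zero_ne_one this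

theorem ch_pow (m : ZMod (2 * g + 2)) (j : ℕ) : ch g m ^ j = ch g (j * m) := by
  unfold ch
  rw [← AddChar.map_nsmul_eq_pow, nsmul_eq_mul]

theorem ch_one : ch g 1 = eta (g + 1 : ℕ) := by
  unfold ch eta
  have h := stdAddChar_coe (N := 2 * g + 2) 1
  rw [Int.cast_one] at h
  rw [h]
  congr 1
  have h0 : ((g : ℂ) + 1) ≠ 0 := by exact_mod_cast Nat.succ_ne_zero g
  push_cast
  have h1 : (2 * (g : ℂ) + 2) ≠ 0 := by
    have : (2 * (g : ℂ) + 2) = 2 * ((g : ℂ) + 1) := by ring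
    rw [this]
    exact mul_ne_zero two_ne_zero h0
  field_simp

theorem ch_half_mul (k : ZMod (2 * g + 2)) :
    ch g (k * ((g + 1 : ℕ) : ZMod (2 * g + 2))) = ch g (-(k * ((g + 1 : ℕ) : ZMod (2 * g + 2)))) := by
  congr 1
  have h0 : ((2 * g + 2 : ℕ) : ZMod (2 * g + 2)) = 0 := ZMod.natCast_self _
  rw [eq_neg_iff_add_eq_zero]
  have : k * ((g + 1 : ℕ) : ZMod (2 * g + 2)) + k * ((g + 1 : ℕ) : ZMod (2 * g + 2)) =
      k * ((2 * g + 2 : ℕ) : ZMod (2 * g + 2)) := by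
    push_cast
    ring
  rw [this, h0, mul_zero]

/-- the values of the regulators -/
noncomputable def qq (β : ℝ) (m : ZMod (2 * g + 2)) : ℝ := EE (yl (g + 1)) (β * ch g m)

theorem qq_reflect {β : ℝ} (h0 : 0 ≤ β) (h1 : β < 1) (m : ZMod (2 * g + 2)) :
    qq g β (1 - m) = qq g β m := by
  unfold qq
  have h2 : (β : ℂ) * ch g (1 - m) = eta ((g + 1 : ℕ)) * conj ((β : ℂ) * ch g m) := by
    rw [sub_eq_add_neg, ch_add, ch_neg, ch_one, map_mul, Complex.conj_ofReal]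
    ring
  rw [h2]
  refine EE_reflect (g + 1) (Nat.succ_ne_zero g) ?_
  rw [norm_mul, norm_ch, mul_one, Complex.norm_real, Real.norm_eq_abs, abs_of_nonneg h0]
  exact h1

theorem dft_half {β : ℝ} (h0 : 0 ≤ β) (h1 : β < 1) :
    ZMod.dft (fun m => (qq g β m : ℂ)) ((g + 1 : ℕ) : ZMod (2 * g + 2)) = 0 := by
  have hS : ZMod.dft (fun m => (qq g β m : ℂ)) ((g + 1 : ℕ) : ZMod (2 * g + 2)) =
      ∑ m, ch g (m * ((g + 1 : ℕ) : ZMod (2 * g + 2))) * (qq g β m : ℂ) := by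
    rw [ZMod.dft_apply]
    refine sum_congr rfl fun m _ => ?_
    rw [smul_eq_mul, ch_half_mul]
    rfl
  have h2 : ∑ m, ch g (m * ((g + 1 : ℕ) : ZMod (2 * g + 2))) * (qq g β m : ℂ) =
      -∑ m, ch g (m * ((g + 1 : ℕ) : ZMod (2 * g + 2))) * (qq g β m : ℂ) := by
    rw [← sum_neg_distrib]
    refine Fintype.sum_equiv (Equiv.subLeft 1) _ _ fun m => ?_
    rw [Equiv.subLeft_apply, qq_reflect g h0 h1, sub_mul, one_mul, sub_eq_add_neg, ch_add,
      ← ch_half_mul]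
    have h3 : ch g ((g + 1 : ℕ) : ZMod (2 * g + 2)) = -1 := stdAddChar_half
    rw [h3]
    ring
  rw [hS]
  have h4 : (2 : ℂ) * ∑ m, ch g (m * ((g + 1 : ℕ) : ZMod (2 * g + 2))) * (qq g β m : ℂ) = 0 := by
    linear_combination h2
  exact (mul_eq_zero.1 h4).resolve_left two_ne_zero

/-- the coefficients of the expansion -/
noncomputable def cf (β : ℝ) (j : ℕ) : ℂ := (β : ℂ) ^ j / j * Kn (g + 1) j

/-- the principal part -/
noncomputable def pp (β : ℝ) (m : ZMod (2 * g + 2)) : ℂ :=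
  π * ∑ j ∈ range (g + 1), (cf g β j * ch g (j * m) + conj (cf g β j) * ch g (-(j * m)))

theorem sum_ch (a : ZMod (2 * g + 2)) :
    ∑ m, ch g (m * a) = if a = 0 then ((2 * g + 2 : ℕ) : ℂ) else 0 := by
  have h := AddChar.sum_mulShift a (isPrimitive_stdAddChar (2 * g + 2))
  rw [ZMod.card] at h
  unfold ch
  rw [h]
  split_ifs <;> simp

theorem natCast_ne {a b : ℕ} (ha : a < 2 * g + 2) (hb : b < 2 * g + 2) (hab : a ≠ b) :
    ((a : ℕ) : ZMod (2 * g + 2)) ≠ b := by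
  intro h
  apply hab
  have h1 := congrArg ZMod.val h
  rwa [ZMod.val_natCast_of_lt ha, ZMod.val_natCast_of_lt hb] at h1

theorem dft_pp (β : ℝ) {k : ℕ} (hk : 1 ≤ k) (hk2 : k ≤ g) :
    ZMod.dft (pp g β) ((k : ℕ) : ZMod (2 * g + 2)) = π * ((2 * g + 2 : ℕ) : ℂ) * cf g β k := by
  rw [ZMod.dft_apply]
  have h1 : ∀ m : ZMod (2 * g + 2), stdAddChar (-(m * (k : ZMod (2 * g + 2)))) • pp g β m =
      ∑ j ∈ range (g + 1), (π * cf g β j * ch g (m * ((j : ZMod (2 * g + 2)) - k)) +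
        π * conj (cf g β j) * ch g (m * (-(j : ZMod (2 * g + 2)) - k))) := by
    intro m
    unfold pp
    rw [smul_eq_mul, mul_sum, mul_sum]
    refine sum_congr rfl fun j _ => ?_
    have e1 : ch g (m * ((j : ZMod (2 * g + 2)) - k)) =
        stdAddChar (-(m * (k : ZMod (2 * g + 2)))) * ch g (j * m) := by
      have : m * ((j : ZMod (2 * g + 2)) - k) = -(m * (k : ZMod (2 * g + 2))) + j * m := by ring
      rw [this, ch_add]
      rfl
    have e2 : ch g (m * (-(j : ZMod (2 * g + 2)) - k)) =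
        stdAddChar (-(m * (k : ZMod (2 * g + 2)))) * ch g (-(j * m)) := by
      have : m * (-(j : ZMod (2 * g + 2)) - k) = -(m * (k : ZMod (2 * g + 2))) + -(j * m) := by
        ring
      rw [this, ch_add]
      rfl
    rw [e1, e2]
    ring
  simp only [h1]
  rw [sum_comm]
  simp only [sum_add_distrib, ← mul_sum, sum_ch]
  rw [sum_eq_single k]
  · have h2 : ∀ j ∈ range (g + 1), (-(j : ZMod (2 * g + 2)) - k) ≠ 0 := by
      intro j hj h
      have hj' := mem_range.1 hj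
      have h3 : (((j + k : ℕ)) : ZMod (2 * g + 2)) = ((0 : ℕ) : ZMod (2 * g + 2)) := by
        push_cast
        linear_combination -h
      exact natCast_ne g (by omega) (by omega) (by omega) h3
    have h4 : ∑ j ∈ range (g + 1), π * conj (cf g β j) *
        (if (-(j : ZMod (2 * g + 2)) - k) = 0 then ((2 * g + 2 : ℕ) : ℂ) else 0) = 0 := by
      refine sum_eq_zero fun j hj => ?_
      rw [if_neg (h2 j hj), mul_zero]
    rw [h4, add_zero, if_pos (sub_self _)]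
    ring
  · intro j hj hjk
    have hj' := mem_range.1 hj
    rw [if_neg, mul_zero]
    exact sub_ne_zero.2 (natCast_ne g (by omega) (by omega) hjk)
  · intro h
    exact absurd (mem_range.2 (by omega)) h

theorem pp_eq (β : ℝ) (m : ZMod (2 * g + 2)) : pp g β m =
    ((2 * π * (∑ j ∈ range (g + 1), ((β : ℂ) * ch g m) ^ j / j * Kn (g + 1) j).re : ℝ) : ℂ) := by
  have h1 : ∀ z : ℂ, ((2 * π * z.re : ℝ) : ℂ) = π * (z + conj z) := by
    intro z
    rw [Complex.add_conj]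
    push_cast
    ring
  rw [h1, map_sum, ← sum_add_distrib]
  unfold pp
  congr 1
  refine sum_congr rfl fun j _ => ?_
  have h2 : ((β : ℂ) * ch g m) ^ j / j * Kn (g + 1) j = cf g β j * ch g (j * m) := by
    unfold cf
    rw [mul_pow, ch_pow]
    ring
  rw [h2, map_mul, ch_neg]

theorem norm_qq_sub_pp {β : ℝ} (h0 : 0 ≤ β) (h1 : β ≤ 1 / 2) (m : ZMod (2 * g + 2)) :
    ‖(qq g β m : ℂ) - pp g β m‖ ≤ 8 * π * β ^ (g + 1) := by
  rw [pp_eq, ← Complex.ofReal_sub, Complex.norm_real, Real.norm_eq_abs]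
  have hb : ‖(β : ℂ) * ch g m‖ = β := by
    rw [norm_mul, norm_ch, mul_one, Complex.norm_real, Real.norm_eq_abs, abs_of_nonneg h0]
  have h2 := EE_taylor (g + 1) (Nat.succ_ne_zero g) (b := (β : ℂ) * ch g m) (by rw [hb]; exact h1)
  rw [hb] at h2
  exact h2

theorem norm_dft_le (f : ZMod (2 * g + 2) → ℂ) {C : ℝ} (hf : ∀ m, ‖f m‖ ≤ C)
    (k : ZMod (2 * g + 2)) : ‖ZMod.dft f k‖ ≤ (2 * g + 2 : ℕ) * C := by
  rw [ZMod.dft_apply]
  refine (norm_sum_le _ _).trans ?_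
  have h1 : ∀ m ∈ (univ : Finset (ZMod (2 * g + 2))), ‖stdAddChar (-(m * k)) • f m‖ ≤ C := by
    intro m _
    rw [norm_smul]
    have : ‖(stdAddChar (-(m * k)) : ℂ)‖ = 1 := norm_ch g _
    rw [this, one_mul]
    exact hf m
  refine (sum_le_sum h1).trans ?_
  rw [sum_const, card_univ, ZMod.card, nsmul_eq_mul]

theorem dft_ne_zero {β : ℝ} (h0 : 0 < β) (h1 : β ≤ 1 / 2) {k : ℕ} (hk : 1 ≤ k) (hk2 : k ≤ g)
    (hβ : 8 * k * β < ‖Kn (g + 1) k‖) :
    ZMod.dft (fun m => (qq g β m : ℂ)) ((k : ℕ) : ZMod (2 * g + 2)) ≠ 0 := by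
  intro h
  have hpi := Real.pi_pos
  have hk0 : (0 : ℝ) < k := by exact_mod_cast hk
  have h2 : ZMod.dft (fun m => (qq g β m : ℂ) - pp g β m) ((k : ℕ) : ZMod (2 * g + 2)) =
      -(π * ((2 * g + 2 : ℕ) : ℂ) * cf g β k) := by
    have h3 : (fun m => (qq g β m : ℂ) - pp g β m) = (fun m => (qq g β m : ℂ)) - pp g β := rfl
    rw [h3, map_sub, Pi.sub_apply, h, dft_pp g β hk hk2, zero_sub]
  have h3 := norm_dft_le g (fun m => (qq g β m : ℂ) - pp g β m)
    (fun m => norm_qq_sub_pp g h0.le h1 m) ((k : ℕ) : ZMod (2 * g + 2))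
  rw [h2, norm_neg, norm_mul, norm_mul, Complex.norm_real, Real.norm_eq_abs, abs_of_pos hpi,
    Complex.norm_natCast] at h3
  have hn0 : (0 : ℝ) < ((2 * g + 2 : ℕ) : ℝ) := by positivity
  have h4 : ‖cf g β k‖ = β ^ k / k * ‖Kn (g + 1) k‖ := by
    unfold cf
    rw [norm_mul, norm_div, norm_pow, Complex.norm_real, Real.norm_eq_abs, abs_of_pos h0,
      Complex.norm_natCast]
  rw [h4] at h3
  have h5 : β ^ k / k * ‖Kn (g + 1) k‖ ≤ 8 * β ^ (g + 1) := by
    have h6 : (π * ((2 * g + 2 : ℕ) : ℝ)) * (β ^ k / k * ‖Kn (g + 1) k‖) ≤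
        (π * ((2 * g + 2 : ℕ) : ℝ)) * (8 * β ^ (g + 1)) := by
      calc (π * ((2 * g + 2 : ℕ) : ℝ)) * (β ^ k / k * ‖Kn (g + 1) k‖)
          ≤ ((2 * g + 2 : ℕ) : ℝ) * (8 * π * β ^ (g + 1)) := h3
        _ = (π * ((2 * g + 2 : ℕ) : ℝ)) * (8 * β ^ (g + 1)) := by ring
    exact le_of_mul_le_mul_left h6 (by positivity)
  have h7 : β ^ (g + 1) ≤ β ^ k * β := by
    rw [← pow_succ]
    exact pow_le_pow_of_le_one h0.le (by linarith) (by omega)
  have h8 : 0 < β ^ k := by positivity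
  have h9 : β ^ k * ‖Kn (g + 1) k‖ ≤ β ^ k * (8 * k * β) := by
    have h10 : β ^ k * ‖Kn (g + 1) k‖ = k * (β ^ k / k * ‖Kn (g + 1) k‖) := by
      field_simp
    rw [h10]
    calc k * (β ^ k / k * ‖Kn (g + 1) k‖) ≤ k * (8 * (β ^ k * β)) :=
          mul_le_mul_of_nonneg_left (h5.trans (by linarith)) hk0.le
      _ = β ^ k * (8 * k * β) := by ring
  have h11 := le_of_mul_le_mul_left h9 h8
  linarith

theorem dft_neg_ne_zero (f : ZMod (2 * g + 2) → ℝ) (k : ZMod (2 * g + 2))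
    (h : ZMod.dft (fun m => (f m : ℂ)) k ≠ 0) : ZMod.dft (fun m => (f m : ℂ)) (-k) ≠ 0 := by
  intro h0
  apply h
  have h1 : conj (ZMod.dft (fun m => (f m : ℂ)) (-k)) = ZMod.dft (fun m => (f m : ℂ)) k := by
    rw [ZMod.dft_apply, ZMod.dft_apply, map_sum]
    refine sum_congr rfl fun m _ => ?_
    rw [smul_eq_mul, smul_eq_mul, map_mul, Complex.conj_ofReal]
    congr 1
    have h2 : -(m * k) = -(-(m * -k)) := by ring
    have h3 := ch_neg g (-(m * -k))
    rw [h2]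
    exact h3.symm
  rw [← h1, h0, map_zero]

theorem exists_beta : ∃ β₀ : ℝ, 0 < β₀ ∧ β₀ ≤ 1 / 4 ∧ ∀ β : ℝ, 0 < β → β < β₀ →
    (Matrix.of fun l k : Fin (2 * g) =>
      qq g β ((((k : ℕ) + 1 : ℕ) : ZMod (2 * g + 2)) - ((l : ℕ) : ZMod (2 * g + 2))) -
      qq g β (0 - ((l : ℕ) : ZMod (2 * g + 2)))).det ≠ 0 := by
  have h1 : ∃ ε : ℝ, 0 < ε ∧ ∀ k ∈ Finset.Icc 1 g, ε ≤ ‖Kn (g + 1) k‖ / (8 * k) := by
    by_cases hne : (Finset.Icc 1 g).Nonempty
    · obtain ⟨k0, hk0, hmin⟩ := Finset.exists_min_image (Finset.Icc 1 g)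
        (fun k : ℕ => ‖Kn (g + 1) k‖ / (8 * k)) hne
      refine ⟨‖Kn (g + 1) k0‖ / (8 * k0), ?_, hmin⟩
      have h2 := Finset.mem_Icc.1 hk0
      have h3 : (0 : ℝ) < k0 := by exact_mod_cast h2.1
      have h4 := norm_pos_iff.2 (Kn_ne_zero (g + 1) (n := k0) (by omega))
      positivity
    · refine ⟨1, one_pos, fun k hk => absurd ⟨k, hk⟩ hne⟩
  obtain ⟨ε, hε, hmin⟩ := h1
  refine ⟨min ε (1 / 4), lt_min hε (by norm_num), min_le_right _ _, fun β hβ hβ0 => ?_⟩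
  have hβ1 : β < ε := lt_of_lt_of_le hβ0 (min_le_left _ _)
  have hβ2 : β < 1 / 4 := lt_of_lt_of_le hβ0 (min_le_right _ _)
  have hpos : ∀ k : ℕ, 1 ≤ k → k ≤ g →
      ZMod.dft (fun m => (qq g β m : ℂ)) ((k : ℕ) : ZMod (2 * g + 2)) ≠ 0 := by
    intro k hk hk2
    refine dft_ne_zero g hβ (by linarith) hk hk2 ?_
    have h2 := hmin k (Finset.mem_Icc.2 ⟨hk, hk2⟩)
    have hk0 : (0 : ℝ) < 8 * k := by
      have : (0 : ℝ) < k := by exact_mod_cast hk
      linarith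
    rw [le_div_iff₀ hk0] at h2
    calc 8 * k * β < 8 * k * ε := mul_lt_mul_of_pos_left hβ1 hk0
      _ = ε * (8 * k) := by ring
      _ ≤ _ := h2
  refine circ_det (qq g β) (fun j hj0 hjN => ?_) (dft_half g hβ.le (by linarith))
  have hval : ((j.val : ℕ) : ZMod (2 * g + 2)) = j := ZMod.natCast_zmod_val j
  have hlt := ZMod.val_lt j
  have hv0 : j.val ≠ 0 := by
    intro h
    apply hj0
    rw [← hval, h, Nat.cast_zero]
  have hvN : j.val ≠ g + 1 := by
    intro h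
    apply hjN
    rw [← hval, h]
  rcases lt_or_ge j.val (g + 1) with h | h
  · rw [← hval]
    exact hpos _ (by omega) (by omega)
  · have h2 : j = -(((2 * g + 2 - j.val : ℕ)) : ZMod (2 * g + 2)) := by
      rw [Nat.cast_sub hlt.le, hval, ZMod.natCast_self, zero_sub, neg_neg]
    rw [h2]
    exact dft_neg_ne_zero g _ _ (hpos _ (by omega) (by omega))

end four

end Pool.Agent.TH826.HD
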