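import Mathlib
set_option autoImplicit false

/-!
The roots of polynomials near `x ^ N`.
-/

namespace Pool.Agent.TH826.HD

open Filter Topology Metric

variable {N : ℕ}

/-- the function `(u, s) ↦ (1 + s) ^ N + ∑_i u_i (1 + s) ^ i` -/
noncomputable def rf (N : ℕ) (p : (Fin N → ℂ) × ℂ) : ℂ :=
  (1 + p.2) ^ N + ∑ i : Fin N, p.1 i * (1 + p.2) ^ (i : ℕ)

theorem contDiff_rf : ContDiff ℂ 2 (rf N) := by
  unfold rf
  refine ContDiff.add ((contDiff_const.add contDiff_snd).pow _) ?_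
  refine ContDiff.sum fun i _ => ?_
  refine ContDiff.mul ?_ ((contDiff_const.add contDiff_snd).pow _)
  exact (contDiff_apply ℂ ℂ i).comp contDiff_fst

theorem rf_zero : rf N (0, 0) = 1 := by
  unfold rf
  simp

theorem inv_rf (hN : 1 ≤ N) : (fderiv ℂ (rf N) ((0 : Fin N → ℂ), (0 : ℂ)) ∘L
    ContinuousLinearMap.inr ℂ (Fin N → ℂ) ℂ).IsInvertible := by
  have h1 : HasFDerivAt (rf N) (fderiv ℂ (rf N) ((0 : Fin N → ℂ), (0 : ℂ)))
      ((0 : Fin N → ℂ), (0 : ℂ)) :=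
    ((contDiff_rf (N := N)).differentiable (by norm_num) _).hasFDerivAt
  have h2 : HasFDerivAt (fun s : ℂ => ((0 : Fin N → ℂ), s))
      (ContinuousLinearMap.inr ℂ (Fin N → ℂ) ℂ) 0 :=
    (ContinuousLinearMap.inr ℂ (Fin N → ℂ) ℂ).hasFDerivAt
  have h3 := (h1.comp (0 : ℂ) h2).hasDerivAt
  have h4 : HasDerivAt (fun s : ℂ => (1 + s) ^ N) (N : ℂ) 0 := by
    have h5 : HasDerivAt (fun s : ℂ => (1 + s) ^ N) _ 0 :=
      ((hasDerivAt_id (0 : ℂ)).const_add 1).fun_pow N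
    refine h5.congr_deriv ?_
    simp
  have h6 : (rf N ∘ fun s : ℂ => ((0 : Fin N → ℂ), s)) = fun s : ℂ => (1 + s) ^ N := by
    funext s
    simp [rf]
  rw [h6] at h3
  have h7 := h3.unique h4
  have hN0 : (N : ℂ) ≠ 0 := by exact_mod_cast (by omega : N ≠ 0)
  refine ⟨ContinuousLinearEquiv.unitsEquivAut ℂ (Units.mk0 (N : ℂ) hN0), ?_⟩
  ext
  rw [h7]
  simp

theorem exists_root (hN : 1 ≤ N) : ∃ (σ : (Fin N → ℂ) → ℂ) (r : ℝ), 0 < r ∧
    ContDiffOn ℝ 2 σ (ball 0 r) ∧ (∀ ε : ℝ, 0 < ε → ∃ r' : ℝ, 0 < r' ∧ r' ≤ r ∧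
      ∀ u ∈ ball (0 : Fin N → ℂ) r', ‖σ u‖ < ε) ∧
    ∀ u ∈ ball (0 : Fin N → ℂ) r, (1 + σ u) ^ N + ∑ i, u i * (1 + σ u) ^ (i : ℕ) = 1 := by
  have hcd : ContDiffAt ℂ 2 (rf N) ((0 : Fin N → ℂ), (0 : ℂ)) := contDiff_rf.contDiffAt
  have hinv := inv_rf hN
  set σ := hcd.implicitFunction (by norm_num) hinv with hσ
  have h1 : σ 0 = 0 := hcd.implicitFunction_apply_self (by norm_num) hinv
  have h2 : ∀ᶠ u in 𝓝 (0 : Fin N → ℂ), rf N (u, σ u) = rf N (0, 0) :=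
    hcd.eventually_apply_implicitFunction (by norm_num) hinv
  have h3 : ContDiffAt ℂ 2 σ 0 := hcd.contDiffAt_implicitFunction (by norm_num) hinv
  have h4 : ∀ᶠ u in 𝓝 (0 : Fin N → ℂ), ContDiffAt ℂ 2 σ u := h3.eventually (by norm_num)
  obtain ⟨r, hr, h5⟩ := Metric.eventually_nhds_iff_ball.1 (h2.and h4)
  refine ⟨σ, r, hr, fun u hu => ?_, fun ε hε => ?_, fun u hu => ?_⟩
  · exact ((h5 u hu).2.restrict_scalars ℝ).contDiffWithinAt
  · have h6 := h3.continuousAt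
    obtain ⟨r', hr', h7⟩ := Metric.continuousAt_iff.1 h6 ε hε
    refine ⟨min r r', lt_min hr hr', min_le_left _ _, fun u hu => ?_⟩
    have h8 := h7 (lt_of_lt_of_le (mem_ball.1 hu) (min_le_right _ _))
    rwa [h1, dist_zero_right] at h8
  · have h6 := (h5 u hu).1
    rw [rf_zero] at h6
    exact h6

end Pool.Agent.TH826.HD
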