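import Pool.Agent.TH826.HD.Tor
import Pool.Agent.TH826.HD.Root
import Pool.Agent.TH826.HD.Four
import Pool.Agent.TH826.SX.Det
set_option autoImplicit false

/-!
The regulators of the curves `z + 1/z = F(x)`, `F` near `x ^ (g + 1)`.
-/

namespace Pool.Agent.TH826.HD

open MeasureTheory Polynomial

open scoped Real ComplexConjugate

open Pool.Agent.TH826.MK (Torus symb KQ)

section est

theorem norm_log_one_sub_sub_le {p q : ℂ} (hp : ‖p‖ ≤ 1 / 2) (hq : ‖q‖ ≤ 1 / 2) :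
    ‖Complex.log (1 - p) - Complex.log (1 - q)‖ ≤ 2 * ‖p - q‖ := by
  have hd : ∀ x ∈ Metric.closedBall (0 : ℂ) (1 / 2),
      HasDerivWithinAt (fun x => Complex.log (1 - x)) (-1 / (1 - x))
        (Metric.closedBall (0 : ℂ) (1 / 2)) x := by
    intro x hx
    rw [mem_closedBall_zero_iff] at hx
    have h1 : HasDerivAt (fun x : ℂ => 1 - x) (-1) x := by
      simpa using (hasDerivAt_id x).const_sub 1
    exact (h1.clog (one_sub_mem_slitPlane (by linarith))).hasDerivWithinAt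
  have hb : ∀ x ∈ Metric.closedBall (0 : ℂ) (1 / 2), ‖-1 / (1 - x)‖ ≤ 2 := by
    intro x hx
    rw [mem_closedBall_zero_iff] at hx
    rw [norm_div, norm_neg, norm_one]
    have h1 : 1 / 2 ≤ ‖1 - x‖ := by
      have := norm_sub_norm_le (1 : ℂ) x
      rw [norm_one] at this
      linarith
    rw [div_le_iff₀ (by linarith)]
    linarith
  exact (convex_closedBall (0 : ℂ) (1 / 2)).norm_image_sub_le_of_norm_hasDerivWithin_le hd hb
    (mem_closedBall_zero_iff.2 hq) (mem_closedBall_zero_iff.2 hp)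

theorem continuous_log_div {X : ℝ → ℂ} (hX : Continuous X) (hX0 : ∀ s, X s ≠ 0) {b : ℂ}
    (hb : ∀ s, ‖b / X s‖ ≤ 1 / 2) : Continuous fun s => Complex.log (1 - b / X s) :=
  continuous_log_one_sub (continuous_const.div hX hX0) fun s => (hb s).trans_lt (by norm_num)

theorem abs_EE_sub_le {X Y : ℝ → ℂ} (hX : Continuous X) (hX0 : ∀ s, X s ≠ 0)
    (hY : Continuous Y) (hY0 : ∀ s, Y s ≠ 0) {b a : ℂ} (hb : ∀ s, ‖b / X s‖ ≤ 1 / 2)
    (ha : ∀ s, ‖a / Y s‖ ≤ 1 / 2) {ε : ℝ} (h : ∀ s, ‖b / X s - a / Y s‖ ≤ ε) :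
    |EE X b - EE Y a| ≤ 8 * π * ε := by
  have hcX : Continuous fun s => rho s * Complex.log (1 - b / X s) :=
    continuous_rho.mul (continuous_log_div hX hX0 hb)
  have hcY : Continuous fun s => rho s * Complex.log (1 - a / Y s) :=
    continuous_rho.mul (continuous_log_div hY hY0 ha)
  have h1 : EE X b - EE Y a = -(2 * π) * (∫ s in (0 : ℝ)..1,
      (rho s * Complex.log (1 - b / X s) - rho s * Complex.log (1 - a / Y s))).re := by
    rw [intervalIntegral.integral_sub (hcX.intervalIntegrable _ _)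
      (hcY.intervalIntegrable _ _), Complex.sub_re]
    unfold EE
    ring
  have h2 : ‖∫ s in (0 : ℝ)..1,
      (rho s * Complex.log (1 - b / X s) - rho s * Complex.log (1 - a / Y s))‖ ≤
      (4 * ε) * |1 - 0| := by
    refine intervalIntegral.norm_integral_le_of_norm_le_const fun s _ => ?_
    rw [← mul_sub, norm_mul]
    calc ‖rho s‖ * ‖Complex.log (1 - b / X s) - Complex.log (1 - a / Y s)‖
        ≤ 2 * (2 * ‖b / X s - a / Y s‖) := mul_le_mul (norm_rho_le s)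
          (norm_log_one_sub_sub_le (hb s) (ha s)) (norm_nonneg _) (by norm_num)
      _ ≤ 2 * (2 * ε) := by
          have := h s
          linarith
      _ = 4 * ε := by ring
  have hpi := Real.pi_pos
  rw [h1, abs_mul, abs_neg, abs_of_pos (by positivity : (0 : ℝ) < 2 * π)]
  have h8 := (Complex.abs_re_le_norm _).trans h2
  rw [sub_zero, abs_one, mul_one] at h8
  calc 2 * π * |_| ≤ 2 * π * (4 * ε) := mul_le_mul_of_nonneg_left h8 (by positivity)
    _ = 8 * π * ε := by ring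

end est

section poly

variable {g : ℕ}

/-- The polynomial `x ^ (g + 1) + ∑_i c_i x ^ i`. -/
noncomputable def FF (c : Fin (g + 1) → ℂ) : ℂ[X] :=
  X ^ (g + 1) + ∑ i : Fin (g + 1), C (c i) * X ^ (i : ℕ)

theorem eval_FF (c : Fin (g + 1) → ℂ) (x : ℂ) :
    (FF c).eval x = x ^ (g + 1) + ∑ i : Fin (g + 1), c i * x ^ (i : ℕ) := by
  unfold FF
  rw [eval_add, eval_pow, eval_X, eval_finsetSum]
  simp

theorem eval_derivative_FF (c : Fin (g + 1) → ℂ) (x : ℂ) :
    (derivative (FF c)).eval x =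
      (g + 1) * x ^ g + ∑ i : Fin (g + 1), c i * ((i : ℕ) * x ^ ((i : ℕ) - 1)) := by
  unfold FF
  rw [derivative_add, derivative_sum, eval_add, eval_finsetSum, derivative_X_pow]
  congr 1
  · simp
  · refine Finset.sum_congr rfl fun i _ => ?_
    rw [derivative_C_mul, derivative_X_pow]
    simp

theorem natDegree_FF (c : Fin (g + 1) → ℂ) : 0 < (FF c).natDegree := by
  have h1 : (∑ i : Fin (g + 1), C (c i) * X ^ (i : ℕ)).degree < ((g + 1 : ℕ) : WithBot ℕ) := by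
    refine (degree_sum_le _ _).trans_lt ?_
    rw [Finset.sup_lt_iff (by exact WithBot.bot_lt_coe _)]
    intro i _
    refine (degree_C_mul_X_pow_le _ _).trans_lt ?_
    exact_mod_cast i.2
  have h2 : (FF c).degree = ((g + 1 : ℕ) : WithBot ℕ) := by
    unfold FF
    rw [degree_add_eq_left_of_degree_lt]
    · rw [degree_X_pow]
    · rw [degree_X_pow]
      exact h1
  rw [natDegree_eq_of_degree_eq_some h2]
  exact Nat.succ_pos g

/-- smoothness of the curves near `z + 1/z = x ^ (g + 1)` -/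
theorem smooth_FF {c : Fin (g + 1) → ℂ} {δ : ℝ} (hδ : (g + 1) * δ < 1) (hc : ∀ i, ‖c i‖ < δ)
    (x z : ℂ) (h : z ^ 2 - (FF c).eval x * z + 1 = 0) :
    2 * z - (FF c).eval x ≠ 0 ∨ (derivative (FF c)).eval x * z ≠ 0 := by
  by_contra hcon
  push Not at hcon
  obtain ⟨h1, h2⟩ := hcon
  have hδ0 : 0 < δ := (norm_nonneg _).trans_lt (hc 0)
  have hz2 : z ^ 2 = 1 := by linear_combination -h + z * h1
  have hz0 : z ≠ 0 := by
    intro h0
    rw [h0] at hz2
    norm_num at hz2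
  have hF : ‖(FF c).eval x‖ = 2 := by
    have h3 : (FF c).eval x = 2 * z := by linear_combination -h1
    have h4 : ‖z‖ ^ 2 = 1 := by rw [← norm_pow, hz2, norm_one]
    have h5 : ‖z‖ = 1 := by
      have h6 := norm_nonneg z
      nlinarith
    rw [h3, norm_mul, h5, mul_one]
    norm_num
  have hF' : (derivative (FF c)).eval x = 0 := (mul_eq_zero.1 h2).resolve_right hz0
  rcases lt_or_ge ‖x‖ 1 with hx | hx
  · rw [eval_FF] at hF
    have h3 : ‖x ^ (g + 1) + ∑ i : Fin (g + 1), c i * x ^ (i : ℕ)‖ ≤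
        1 + ∑ _i : Fin (g + 1), δ := by
      refine (norm_add_le _ _).trans (add_le_add ?_ ((norm_sum_le _ _).trans ?_))
      · rw [norm_pow]
        exact pow_le_one₀ (norm_nonneg _) hx.le
      · refine Finset.sum_le_sum fun i _ => ?_
        rw [norm_mul, norm_pow]
        calc ‖c i‖ * ‖x‖ ^ (i : ℕ) ≤ ‖c i‖ * 1 :=
              mul_le_mul_of_nonneg_left (pow_le_one₀ (norm_nonneg _) hx.le) (norm_nonneg _)
          _ ≤ δ := by rw [mul_one]; exact (hc i).le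
    rw [hF, Finset.sum_const, Finset.card_univ, Fintype.card_fin, nsmul_eq_mul] at h3
    push_cast at h3
    linarith
  · rw [eval_derivative_FF] at hF'
    have hx0 : 0 < ‖x‖ ^ g := by positivity
    have h3 : ‖((g : ℂ) + 1) * x ^ g‖ ≤ ∑ _i : Fin (g + 1), δ * (g * ‖x‖ ^ g) := by
      have h4 : ((g : ℂ) + 1) * x ^ g =
          -∑ i : Fin (g + 1), c i * ((i : ℕ) * x ^ ((i : ℕ) - 1)) := by
        linear_combination hF'
      rw [h4, norm_neg]
      refine (norm_sum_le _ _).trans (Finset.sum_le_sum fun i _ => ?_)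
      rw [norm_mul, norm_mul, norm_pow, Complex.norm_natCast]
      have h5 : ((i : ℕ) : ℝ) ≤ g := by exact_mod_cast Nat.lt_succ_iff.1 i.2
      have h6 : ‖x‖ ^ ((i : ℕ) - 1) ≤ ‖x‖ ^ g := pow_le_pow_right₀ hx (by have := i.2; omega)
      exact mul_le_mul (hc i).le (mul_le_mul h5 h6 (by positivity) (by positivity))
        (by positivity) hδ0.le
    have h7 : ‖((g : ℂ) + 1) * x ^ g‖ = (g + 1) * ‖x‖ ^ g := by
      rw [norm_mul, norm_pow]
      congr 1
      have : ((g : ℂ) + 1) = ((g + 1 : ℝ) : ℂ) := by push_cast; rfl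
      rw [this, Complex.norm_real, Real.norm_eq_abs, abs_of_nonneg (by positivity)]
    rw [h7, Finset.sum_const, Finset.card_univ, Fintype.card_fin, nsmul_eq_mul] at h3
    push_cast at h3
    have hg0 : (0 : ℝ) ≤ g := Nat.cast_nonneg g
    have h8 : (g + 1) * (δ * (g * ‖x‖ ^ g)) ≤ g * ‖x‖ ^ g := by
      have h9 : (g + 1) * (δ * (g * ‖x‖ ^ g)) = ((g + 1) * δ) * (g * ‖x‖ ^ g) := by ring
      rw [h9]
      have h10 : 0 ≤ (g : ℝ) * ‖x‖ ^ g := by positivity
      nlinarith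
    nlinarith

/-- the coefficients `c_i y ^ (i - g - 1)` -/
noncomputable def uu (c : Fin (g + 1) → ℂ) (y : ℂ) (i : Fin (g + 1)) : ℂ :=
  c i * (y⁻¹) ^ (g + 1 - (i : ℕ))

/-- the solution of `F(x) = y ^ (g + 1)` near `y` -/
noncomputable def GG (σ : (Fin (g + 1) → ℂ) → ℂ) (c : Fin (g + 1) → ℂ) (y : ℂ) : ℂ :=
  y * (1 + σ (uu c y))

theorem eval_GG {σ : (Fin (g + 1) → ℂ) → ℂ} {c : Fin (g + 1) → ℂ} {y : ℂ} (hy : y ≠ 0)
    (h : (1 + σ (uu c y)) ^ (g + 1) + ∑ i, uu c y i * (1 + σ (uu c y)) ^ (i : ℕ) = 1) :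
    (FF c).eval (GG σ c y) = y ^ (g + 1) := by
  rw [eval_FF]
  unfold GG
  have h1 : ∀ i : Fin (g + 1), c i * (y * (1 + σ (uu c y))) ^ (i : ℕ) =
      y ^ (g + 1) * (uu c y i * (1 + σ (uu c y)) ^ (i : ℕ)) := by
    intro i
    have h4 : ∀ k m : ℕ, k + m = g + 1 → y ^ (g + 1) * (y⁻¹) ^ m = y ^ k := by
      intro k m hkm
      rw [← hkm, pow_add, mul_assoc, ← mul_pow, mul_inv_cancel₀ hy, one_pow, mul_one]
    have h2 := h4 (i : ℕ) (g + 1 - (i : ℕ)) (by have := i.2; omega)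
    have h3 : uu c y i = c i * (y⁻¹) ^ (g + 1 - (i : ℕ)) := rfl
    rw [mul_pow, h3]
    linear_combination (-(c i * (1 + σ (uu c y)) ^ (i : ℕ))) * h2
  simp only [h1]
  rw [mul_pow, ← Finset.mul_sum, ← mul_add, h, mul_one]

theorem norm_uu_lt {c : Fin (g + 1) → ℂ} {y : ℂ} {β r : ℝ} (hβ : 0 < β) (hβ1 : β ≤ 1)
    (hr : 0 < r) (hy : β ≤ ‖y‖) (hc : ∀ i, ‖c i‖ < r * β ^ (g + 1)) : ‖uu c y‖ < r := by
  rw [pi_norm_lt_iff hr]
  intro i
  unfold uu
  rw [norm_mul, norm_pow, norm_inv]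
  have h1 : ‖y‖⁻¹ ≤ β⁻¹ := inv_anti₀ hβ hy
  have h2 : ‖y‖⁻¹ ^ (g + 1 - (i : ℕ)) ≤ (β⁻¹) ^ (g + 1) := by
    refine (pow_le_pow_left₀ (by positivity) h1 _).trans ?_
    exact pow_le_pow_right₀ ((one_le_inv₀ hβ).2 hβ1) (Nat.sub_le _ _)
  calc ‖c i‖ * ‖y‖⁻¹ ^ (g + 1 - (i : ℕ)) ≤ ‖c i‖ * (β⁻¹) ^ (g + 1) :=
        mul_le_mul_of_nonneg_left h2 (norm_nonneg _)
    _ < (r * β ^ (g + 1)) * (β⁻¹) ^ (g + 1) :=
        mul_lt_mul_of_pos_right (hc i) (by positivity)
    _ = r := by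
        rw [mul_assoc, ← mul_pow, mul_inv_cancel₀ hβ.ne', one_pow, mul_one]

end poly

end Pool.Agent.TH826.HD
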