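import Pool.Agent.TH826.MK.OneVar
set_option autoImplicit false

/-!
The regulator of symbols `{f, g}` on loops, and the loops in the curve `z + 1/z = y ^ N`.
-/

namespace Pool.Agent.TH826.HD

open MeasureTheory Set

open Pool.Agent.TH826.MK (pairing integrand grow lw tl lw_vf_self integral_box_prod)

open scoped Real ComplexConjugate

theorem pairing_one_dim {G H : ℝ → ℂ} (hG : ContDiff ℝ 2 G) (hH : ContDiff ℝ 2 H)
    (hG0 : ∀ s, G s ≠ 0) (hH0 : ∀ s, H s ≠ 0) :
    pairing (![fun θ => G (θ 0), fun θ => H (θ 0)] : Fin 2 → (Fin 1 → ℝ) → ℂ) =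
      ∫ s in (0 : ℝ)..1, (Real.log ‖G s‖ * (deriv H s / H s).im -
        Real.log ‖H s‖ * (deriv G s / G s).im) := by
  have hint : ∀ y : Fin 2 → ℝ,
      integrand (![fun θ => G (θ 0), fun θ => H (θ 0)] : Fin 2 → (Fin 1 → ℝ) → ℂ) y =
      Real.log ‖G (y 1)‖ * (deriv H (y 1) / H (y 1)).im -
        Real.log ‖H (y 1)‖ * (deriv G (y 1) / G (y 1)).im := by
    intro y
    unfold integrand
    rw [Matrix.det_fin_two]
    simp only [Matrix.of_apply, Matrix.cons_val_zero, Matrix.cons_val_one]
    have e1 : ∀ (P : ℝ → ℂ), ContDiff ℝ 2 P →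
        grow (fun θ : Fin 1 → ℝ => P (θ 0)) y 1 =
        ((y 0 * (deriv P (y 1) / P (y 1)).re : ℝ) : ℂ) +
        Complex.I * (((deriv P (y 1) / P (y 1)).im : ℝ) : ℂ) := by
      intro P hP
      have h1 := Pool.Agent.TH826.MK.grow_succ (fun θ : Fin 1 → ℝ => P (θ 0)) y 0
      rw [lw_vf_self hP] at h1
      exact h1
    have e0 : ∀ (P : ℝ → ℂ), grow (fun θ : Fin 1 → ℝ => P (θ 0)) y 0 =
        ((Real.log ‖P (y 1)‖ : ℝ) : ℂ) := fun P => rfl
    rw [e1 G hG, e1 H hH, e0, e0, pow_one]
    simp [Complex.mul_re, Complex.mul_im, Complex.add_re, Complex.add_im, Complex.sub_im]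
    ring
  have hcont : Continuous fun s : ℝ => Real.log ‖G s‖ * (deriv H s / H s).im -
        Real.log ‖H s‖ * (deriv G s / G s).im := by
    have c1 : ∀ P : ℝ → ℂ, ContDiff ℝ 2 P → (∀ s, P s ≠ 0) →
        Continuous fun s => Real.log ‖P s‖ := fun P hP hP0 =>
      Continuous.log hP.continuous.norm fun s => norm_ne_zero_iff.2 (hP0 s)
    have c2 : ∀ P : ℝ → ℂ, ContDiff ℝ 2 P → (∀ s, P s ≠ 0) →
        Continuous fun s => (deriv P s / P s).im := fun P hP hP0 =>
      Complex.continuous_im.comp ((hP.continuous_deriv (by norm_num)).div hP.continuous hP0)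
    exact ((c1 G hG hG0).mul (c2 H hH hH0)).sub ((c1 H hH hH0).mul (c2 G hG hG0))
  unfold pairing
  simp only [hint]
  have h := integral_box_prod (d := 1) (fun _ _ s => ((Real.log ‖G s‖ * (deriv H s / H s).im -
        Real.log ‖H s‖ * (deriv G s / G s).im : ℝ) : ℂ)) (fun _ =>
      Complex.continuous_ofReal.comp (hcont.comp continuous_snd))
  simp only [Finset.univ_unique, Finset.prod_singleton, Fin.default_eq_zero, Fin.isValue] at h
  rw [integral_const, integral_complex_ofReal, integral_complex_ofReal] at h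
  have hvol : ((volume : Measure ℝ).restrict (Icc (0 : ℝ) 1)).real univ = 1 := by
    rw [measureReal_restrict_apply_univ]
    simp
  rw [hvol, one_smul] at h
  rw [intervalIntegral.integral_of_le zero_le_one, ← integral_Icc_eq_integral_Ioc]
  exact Complex.ofReal_injective h

/-- `t(s) = 2 π i s + sin 2 π s` -/
noncomputable def tt (s : ℝ) : ℂ := 2 * π * Complex.I * s + Real.sin (2 * π * s)

/-- `z(s) = exp t(s)` -/
noncomputable def zl (s : ℝ) : ℂ := Complex.exp (tt s)

/-- `z(s) + 1 / z(s)` -/
noncomputable def wl (s : ℝ) : ℂ := zl s + (zl s)⁻¹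

/-- the weight `1 - i cos 2 π s` -/
noncomputable def rho (s : ℝ) : ℂ := 1 - Complex.I * Real.cos (2 * π * s)

theorem hasDerivAt_tt (s : ℝ) :
    HasDerivAt tt (2 * π * Complex.I + ((2 * π * Real.cos (2 * π * s) : ℝ) : ℂ)) s := by
  unfold tt
  have h1 : HasDerivAt (fun s : ℝ => (2 * π * Complex.I * s : ℂ)) (2 * π * Complex.I * 1) s :=
    (Complex.ofRealCLM.hasDerivAt (x := s)).const_mul _
  have h2 : HasDerivAt (fun s : ℝ => Real.sin (2 * π * s)) (Real.cos (2 * π * s) * (2 * π * 1)) s :=
    ((hasDerivAt_id s).const_mul (2 * π)).sin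
  have h3 := h1.add h2.ofReal_comp
  refine h3.congr_deriv ?_
  push_cast
  ring

theorem contDiff_sin2 {n : ℕ∞} : ContDiff ℝ n fun s : ℝ => Real.sin (2 * π * s) :=
  Real.contDiff_sin.comp (contDiff_const.mul contDiff_id)

theorem contDiff_cos2 {n : ℕ∞} : ContDiff ℝ n fun s : ℝ => Real.cos (2 * π * s) :=
  Real.contDiff_cos.comp (contDiff_const.mul contDiff_id)

theorem contDiff_tt : ContDiff ℝ 2 tt := by
  unfold tt
  refine ContDiff.add (contDiff_const.mul Complex.ofRealCLM.contDiff) ?_
  exact Complex.ofRealCLM.contDiff.comp (contDiff_sin2 (n := 2))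

theorem contDiff_zl : ContDiff ℝ 2 zl := contDiff_tt.cexp

theorem zl_ne_zero (s : ℝ) : zl s ≠ 0 := Complex.exp_ne_zero _

theorem continuous_rho : Continuous rho := by
  unfold rho
  refine continuous_const.sub (continuous_const.mul ?_)
  exact Complex.continuous_ofReal.comp (contDiff_cos2 (n := 0)).continuous

/-- The regulator of the symbol with entries `ε z` and `exp h`. -/
theorem pairing_loop {ε : ℂ} (hε : ‖ε‖ = 1) {h : ℝ → ℂ} (hh : ContDiff ℝ 2 h) :
    pairing (![fun θ => ε * zl (θ 0), fun θ => Complex.exp (h (θ 0))] :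
      Fin 2 → (Fin 1 → ℝ) → ℂ) = -(2 * π) * (∫ s in (0 : ℝ)..1, rho s * h s).re := by
  have hε0 : ε ≠ 0 := fun h0 => by rw [h0, norm_zero] at hε; exact zero_ne_one hε
  rw [pairing_one_dim (G := fun s => ε * zl s) (H := fun s => Complex.exp (h s))
    (contDiff_const.mul contDiff_zl) hh.cexp
    (fun s => mul_ne_zero hε0 (zl_ne_zero s)) (fun s => Complex.exp_ne_zero _)]
  have hG : ∀ s, deriv (fun s => ε * zl s) s / (ε * zl s) =
      2 * π * Complex.I + ((2 * π * Real.cos (2 * π * s) : ℝ) : ℂ) := by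
    intro s
    have h1 : HasDerivAt (fun s => ε * zl s) _ s := ((hasDerivAt_tt s).cexp).const_mul ε
    rw [h1.deriv, eq_comm, eq_div_iff (mul_ne_zero hε0 (zl_ne_zero s))]
    unfold zl
    ring
  have hH : ∀ s, deriv (fun s => Complex.exp (h s)) s / Complex.exp (h s) = deriv h s := by
    intro s
    have h1 : HasDerivAt (fun s => Complex.exp (h s)) _ s :=
      ((hh.differentiable (by norm_num) s).hasDerivAt).cexp
    rw [h1.deriv, div_eq_iff (Complex.exp_ne_zero _)]
    ring
  have hnG : ∀ s, Real.log ‖ε * zl s‖ = Real.sin (2 * π * s) := by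
    intro s
    rw [norm_mul, hε, one_mul]
    unfold zl
    rw [Complex.norm_exp, Real.log_exp]
    unfold tt
    have h0 : (2 * (π : ℂ) * Complex.I * (s : ℂ)).re = 0 := by simp
    rw [Complex.add_re, h0, Complex.ofReal_re, zero_add]
  have hnH : ∀ s, Real.log ‖Complex.exp (h s)‖ = (h s).re := by
    intro s
    rw [Complex.norm_exp, Real.log_exp]
  simp only [hG, hH, hnG, hnH]
  have him : ∀ s : ℝ, (2 * π * Complex.I + ((2 * π * Real.cos (2 * π * s) : ℝ) : ℂ)).im =
      2 * π := by
    intro s
    have h0 : (2 * (π : ℂ) * Complex.I).im = 2 * π := by simp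
    rw [Complex.add_im, Complex.ofReal_im, h0, add_zero]
  simp only [him]
  -- integration by parts
  have hu : ∀ s : ℝ, HasDerivAt (fun s : ℝ => Real.sin (2 * π * s))
      (2 * π * Real.cos (2 * π * s)) s := by
    intro s
    have h2 : HasDerivAt (fun s : ℝ => Real.sin (2 * π * s))
        (Real.cos (2 * π * s) * (2 * π * 1)) s := ((hasDerivAt_id s).const_mul (2 * π)).sin
    exact h2.congr_deriv (by ring)
  have hv : ∀ s : ℝ, HasDerivAt (fun s : ℝ => (h s).im) ((deriv h s).im) s := by
    intro s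
    have h1 := (hh.differentiable (by norm_num) s).hasDerivAt
    exact (Complex.imCLM.hasFDerivAt.comp_hasDerivAt s h1)
  have hch' : Continuous (deriv h) := hh.continuous_deriv (by norm_num)
  have hcim : Continuous fun s => (h s).im := Complex.continuous_im.comp hh.continuous
  have hcre : Continuous fun s => (h s).re := Complex.continuous_re.comp hh.continuous
  have hcs : Continuous fun s : ℝ => Real.sin (2 * π * s) := (contDiff_sin2 (n := 0)).continuous
  have hcc : Continuous fun s : ℝ => Real.cos (2 * π * s) := (contDiff_cos2 (n := 0)).continuous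
  have hcd : Continuous fun s => (deriv h s).im := Complex.continuous_im.comp hch'
  have hparts := intervalIntegral.integral_mul_deriv_eq_deriv_mul (a := 0) (b := 1)
    (fun s _ => hu s) (fun s _ => hv s)
    ((continuous_const.mul hcc).intervalIntegrable _ _) (hcd.intervalIntegrable _ _)
  have hs1 : Real.sin (2 * π * 1) = 0 := by rw [mul_one]; exact Real.sin_two_pi
  have hs0 : Real.sin (2 * π * 0) = 0 := by rw [mul_zero]; exact Real.sin_zero
  rw [hs1, hs0, zero_mul, zero_mul, sub_zero, zero_sub] at hparts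
  have hI1 : IntervalIntegrable (fun s : ℝ => Real.sin (2 * π * s) * (deriv h s).im) volume 0 1 :=
    (hcs.mul hcd).intervalIntegrable _ _
  have hI2 : IntervalIntegrable (fun s : ℝ => (h s).re * (2 * π)) volume 0 1 :=
    (hcre.mul continuous_const).intervalIntegrable _ _
  have hI3 : IntervalIntegrable (fun s : ℝ => -(2 * π * Real.cos (2 * π * s) * (h s).im))
      volume 0 1 := ((continuous_const.mul hcc).mul hcim).neg.intervalIntegrable _ _
  rw [intervalIntegral.integral_sub hI1 hI2, hparts]
  have hre : (∫ s in (0 : ℝ)..1, rho s * h s).re = ∫ s in (0 : ℝ)..1, (rho s * h s).re := by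
    have h1 := Complex.reCLM.intervalIntegral_comp_comm (a := 0) (b := 1) (μ := volume)
      ((continuous_rho.mul hh.continuous).intervalIntegrable 0 1)
    exact h1.symm
  rw [hre, ← intervalIntegral.integral_const_mul, ← intervalIntegral.integral_neg,
    ← intervalIntegral.integral_sub hI3 hI2]
  refine intervalIntegral.integral_congr fun s _ => ?_
  have h1 : (rho s * h s).re = (h s).re + Real.cos (2 * π * s) * (h s).im := by
    unfold rho
    have h0 : (1 - Complex.I * ((Real.cos (2 * π * s) : ℝ) : ℂ)).re = 1 := by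
      rw [Complex.sub_re, Complex.mul_re, Complex.ofReal_re, Complex.ofReal_im]
      simp
    have h0' : (1 - Complex.I * ((Real.cos (2 * π * s) : ℝ) : ℂ)).im =
        -Real.cos (2 * π * s) := by
      rw [Complex.sub_im, Complex.mul_im, Complex.ofReal_re, Complex.ofReal_im]
      simp
    rw [Complex.mul_re, h0, h0']
    ring
  show -(2 * π * Real.cos (2 * π * s) * (h s).im) - (h s).re * (2 * π) =
    -(2 * π) * (rho s * h s).re
  rw [h1]
  ring

end Pool.Agent.TH826.HD
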