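import Pool.Agent.TH826.HD.Final
set_option autoImplicit false

/-!
The regulator matrix of the curves `z + 1/z = F(x)`, `F` near `x ^ (g + 1)`.
-/

namespace Pool.Agent.TH826.HD

open MeasureTheory Polynomial

open scoped Real ComplexConjugate

open Pool.Agent.TH826.MK (Torus symb KQ)

section main

variable {g : ℕ}

theorem exists_M {t : ℝ} (ht : 0 < t) : ∃ M : ℕ, 1 ≤ M ∧ 0 < Real.sin (π / M) ∧
    2 * Real.sin (π / M) < t := by
  have hpi := Real.pi_pos
  obtain ⟨M, hM⟩ := exists_nat_gt (max 2 (2 * π / t))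
  have h1 : (2 : ℝ) < M := (le_max_left _ _).trans_lt hM
  have h2 : 2 * π / t < M := (le_max_right _ _).trans_lt hM
  have hM0 : (0 : ℝ) < M := by linarith
  have h3 : 0 < π / M := by positivity
  have h4 : π / M < π := div_lt_self hpi (by linarith)
  refine ⟨M, by exact_mod_cast (by linarith : (1 : ℝ) ≤ M), Real.sin_pos_of_pos_of_lt_pi h3 h4, ?_⟩
  have h5 : Real.sin (π / M) < π / M := Real.sin_lt h3
  have h6 : 2 * (π / M) < t := by
    rw [div_lt_iff₀ ht] at h2
    rw [← mul_div_assoc, div_lt_iff₀ hM0]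
    linarith
  linarith

theorem ch_half (m : ℕ) : ch g (m : ZMod (2 * g + 2)) ^ (g + 1) = (-1) ^ m := by
  have h1 : ch g ((g + 1 : ℕ) : ZMod (2 * g + 2)) = -1 := stdAddChar_half
  rw [ch_pow, mul_comm, ← ch_pow, h1]

theorem EE_rot (β : ℝ) (m l : ZMod (2 * g + 2)) :
    EE (fun s => ch g l * yl (g + 1) s) (β * ch g m) = qq g β (m - l) := by
  unfold qq EE
  congr 3
  funext s
  congr 3
  have h1 : ch g m = ch g (m - l) * ch g l := by
    rw [← ch_add, sub_add_cancel]
  have h2 := ch_ne_zero g l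
  have h3 := yl_ne_zero (g + 1) s
  rw [h1]
  field_simp

theorem exists_main (g : ℕ) : ∃ (M : ℕ) (δ : ℝ), 1 ≤ M ∧ 0 < δ ∧ (g + 1) * δ < 1 ∧
    ∀ c : Fin (g + 1) → ℂ, (∀ i, ‖c i‖ < δ) → ∃ b : Fin (2 * g + 2) → ℂ,
      (∀ m, (FF c).eval (b m) = (-1) ^ (m : ℕ) * (2 * Real.sin (π / M))) ∧
      ∃ Γ : Fin (2 * g) → Torus (POpen (FF c) b) 1,
        (∀ l θ x, (Γ l).e θ (pcst (FF c) b x) = x) ∧
        (Matrix.of fun l k : Fin (2 * g) =>
          (Γ l).reg (symb (pent (FF c) b k.castSucc.succ 0))).det ≠ 0 := by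
  have hpi := Real.pi_pos
  obtain ⟨β₀, hβ₀, hβ₀4, href⟩ := exists_beta g
  obtain ⟨M, hM, hsin, hlt⟩ := exists_M (t := β₀ ^ (g + 1)) (by positivity)
  set β : ℝ := (2 * Real.sin (π / M)) ^ (((g + 1 : ℕ) : ℝ)⁻¹) with hβdef
  have h2s : 0 < 2 * Real.sin (π / M) := by positivity
  have hβpos : 0 < β := Real.rpow_pos_of_pos h2s _
  have hβpow : β ^ (g + 1) = 2 * Real.sin (π / M) :=
    Real.rpow_inv_natCast_pow h2s.le (Nat.succ_ne_zero g)
  have hββ : β < β₀ := by
    refine lt_of_pow_lt_pow_left₀ (g + 1) hβ₀.le ?_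
    rw [hβpow]
    exact hlt
  have hβ4 : β < 1 / 4 := hββ.trans_le hβ₀4
  obtain ⟨δ1, hδ1, hdet⟩ := Pool.Agent.TH826.SX.det_ne_zero_near _ (href β hβpos hββ)
  set ε : ℝ := min (1 / 8) (δ1 / (32 * π)) with hεdef
  have hεpos : 0 < ε := lt_min (by norm_num) (by positivity)
  have hε8 : ε ≤ 1 / 8 := min_le_left _ _
  have hεδ : 16 * π * ε < δ1 := by
    have h1 : ε ≤ δ1 / (32 * π) := min_le_right _ _
    rw [le_div_iff₀ (by positivity)] at h1
    nlinarith
  obtain ⟨σ, r, hr, hσC, hσε, hσroot⟩ := exists_root (N := g + 1) (Nat.succ_pos g)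
  obtain ⟨r', hr', hr'r, hσ'⟩ := hσε ε hεpos
  have hg1 : (0 : ℝ) < g + 1 := by positivity
  refine ⟨M, min (r' * β ^ (g + 1)) (1 / (2 * (g + 1))), hM, lt_min (by positivity)
    (by positivity), ?_, fun c hc => ?_⟩
  · have h1 : min (r' * β ^ (g + 1)) (1 / (2 * ((g : ℝ) + 1))) ≤ 1 / (2 * (g + 1)) :=
      min_le_right _ _
    calc ((g : ℝ) + 1) * min (r' * β ^ (g + 1)) (1 / (2 * ((g : ℝ) + 1)))
        ≤ (g + 1) * (1 / (2 * (g + 1))) := mul_le_mul_of_nonneg_left h1 hg1.le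
      _ = 1 / 2 := by field_simp
      _ < 1 := by norm_num
  have hc' : ∀ i, ‖c i‖ < r' * β ^ (g + 1) := fun i => (hc i).trans_le (min_le_left _ _)
  have hu : ∀ y : ℂ, β ≤ ‖y‖ → uu c y ∈ Metric.ball (0 : Fin (g + 1) → ℂ) r' := by
    intro y hy
    rw [mem_ball_zero_iff]
    exact norm_uu_lt hβpos (by linarith) hr' hy hc'
  have hσy : ∀ y : ℂ, β ≤ ‖y‖ → ‖σ (uu c y)‖ < ε := fun y hy => hσ' _ (hu y hy)
  have hroot : ∀ y : ℂ, β ≤ ‖y‖ → (FF c).eval (GG σ c y) = y ^ (g + 1) := by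
    intro y hy
    have hy0 : y ≠ 0 := norm_pos_iff.1 (hβpos.trans_le hy)
    exact eval_GG hy0 (hσroot _ (Metric.ball_subset_ball hr'r (hu y hy)))
  -- the loops
  set Y : ℕ → ℝ → ℂ := fun l s => ch g (l : ZMod (2 * g + 2)) * yl (g + 1) s with hY
  have hYn : ∀ l s, 1 ≤ ‖Y l s‖ := by
    intro l s
    simp only [hY]
    rw [norm_mul, norm_ch, one_mul]
    exact one_le_norm_yl (g + 1) (Nat.succ_ne_zero g) s
  have hYβ : ∀ l s, β ≤ ‖Y l s‖ := fun l s => by
    have := hYn l s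
    linarith
  have hY0 : ∀ l s, Y l s ≠ 0 := fun l s => norm_pos_iff.1 (zero_lt_one.trans_le (hYn l s))
  have hYC : ∀ l, ContDiff ℝ 2 (Y l) := fun l => contDiff_const.mul (contDiff_yl (g + 1))
  set XL : ℕ → ℝ → ℂ := fun l s => GG σ c (Y l s) with hXL
  have hXC : ∀ l, ContDiff ℝ 2 (XL l) := by
    intro l
    have h1 : ContDiff ℝ 2 fun s => uu c (Y l s) := by
      rw [contDiff_pi]
      intro i
      exact contDiff_const.mul (((hYC l).inv (hY0 l)).pow _)
    have h2 : ContDiff ℝ 2 fun s => σ (uu c (Y l s)) :=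
      hσC.comp_contDiff h1 fun s => Metric.ball_subset_ball hr'r (hu _ (hYβ l s))
    exact (hYC l).mul (contDiff_const.add h2)
  have hX1 : ∀ l s, XL l (s + 1) = XL l s := by
    intro l s
    simp only [hXL, hY]
    rw [yl_add_one]
  have hone : ∀ y : ℂ, β ≤ ‖y‖ → 7 / 8 ≤ ‖1 + σ (uu c y)‖ ∧ ‖1 + σ (uu c y)‖ ≤ 9 / 8 := by
    intro y hy
    have h1 := hσy y hy
    constructor
    · have h2 := norm_sub_norm_le (1 : ℂ) (-σ (uu c y))
      rw [norm_neg, norm_one, sub_neg_eq_add] at h2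
      linarith
    · have h2 := norm_add_le (1 : ℂ) (σ (uu c y))
      rw [norm_one] at h2
      linarith
  have hXn : ∀ l s, 7 / 8 ≤ ‖XL l s‖ := by
    intro l s
    simp only [hXL]
    unfold GG
    rw [norm_mul]
    have h1 := hYn l s
    have h2 := (hone _ (hYβ l s)).1
    nlinarith
  have hX0 : ∀ l s, XL l s ≠ 0 := fun l s => norm_pos_iff.1 (by have := hXn l s; linarith)
  -- the points
  set y : ℕ → ℂ := fun m => (β : ℂ) * ch g (m : ZMod (2 * g + 2)) with hy
  have hyn : ∀ m, ‖y m‖ = β := by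
    intro m
    simp only [hy]
    rw [norm_mul, norm_ch, mul_one, Complex.norm_real, Real.norm_eq_abs, abs_of_pos hβpos]
  set bb : ℕ → ℂ := fun m => GG σ c (y m) with hbb
  have hbn : ∀ m, ‖bb m‖ ≤ 9 / 32 := by
    intro m
    simp only [hbb]
    unfold GG
    rw [norm_mul, hyn]
    have h2 := (hone (y m) (hyn m).ge).2
    nlinarith
  have hbX : ∀ m l s, ‖bb m / XL l s‖ ≤ 1 / 2 := by
    intro m l s
    rw [norm_div, div_le_iff₀ (by have := hXn l s; linarith)]
    have h1 := hXn l s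
    have h2 := hbn m
    linarith
  have hyY : ∀ m l s, ‖y m / Y l s‖ ≤ β := by
    intro m l s
    rw [norm_div, hyn]
    exact div_le_self hβpos.le (hYn l s)
  have hclose : ∀ m l s, ‖bb m / XL l s - y m / Y l s‖ ≤ ε := by
    intro m l s
    have h1 := hσy (y m) (hyn m).ge
    have h2 := hσy (Y l s) (hYβ l s)
    have h3 := (hone (Y l s) (hYβ l s)).1
    have h4 := hyY m l s
    have h5 : (1 + σ (uu c (Y l s))) ≠ 0 := norm_pos_iff.1 (by linarith)
    have e : bb m / XL l s - y m / Y l s =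
        (y m / Y l s) * ((σ (uu c (y m)) - σ (uu c (Y l s))) / (1 + σ (uu c (Y l s)))) := by
      simp only [hbb, hXL]
      unfold GG
      have h6 := hY0 l s
      field_simp
      ring
    rw [e, norm_mul, norm_div (σ (uu c (y m)) - σ (uu c (Y l s)))]
    have h7 : ‖σ (uu c (y m)) - σ (uu c (Y l s))‖ ≤ 2 * ε :=
      (norm_sub_le _ _).trans (by linarith)
    have h8 : ‖σ (uu c (y m)) - σ (uu c (Y l s))‖ / ‖1 + σ (uu c (Y l s))‖ ≤ 4 * ε := by
      rw [div_le_iff₀ (by linarith)]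
      nlinarith
    calc ‖y m / Y l s‖ * (‖σ (uu c (y m)) - σ (uu c (Y l s))‖ / ‖1 + σ (uu c (Y l s))‖)
        ≤ (1 / 4) * (4 * ε) := mul_le_mul (h4.trans hβ4.le) h8 (by positivity) (by norm_num)
      _ = ε := by ring
  have hEE : ∀ m l, |EE (XL l) (bb m) -
      qq g β ((m : ZMod (2 * g + 2)) - (l : ZMod (2 * g + 2)))| ≤ 8 * π * ε := by
    intro m l
    rw [← EE_rot β (m : ZMod (2 * g + 2)) (l : ZMod (2 * g + 2))]
    exact abs_EE_sub_le (hXC l).continuous (hX0 l) (hYC l).continuous (hY0 l) (hbX m l)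
      (fun s => (hyY m l s).trans (by linarith)) (hclose m l)
  set b : Fin (2 * g + 2) → ℂ := fun m => bb (m : ℕ) with hb
  have hPt : ∀ (l : ℕ) (s : ℝ), Pt (FF c) b (XL l s)
      (ch g (l : ZMod (2 * g + 2)) ^ (g + 1) * zl s) := by
    intro l s
    refine ⟨?_, fun m h => ?_⟩
    · have h1 : (FF c).eval (XL l s) = ch g (l : ZMod (2 * g + 2)) ^ (g + 1) * wl s := by
        have h2 := hroot (Y l s) (hYβ l s)
        simp only [hXL]
        rw [h2]
        simp only [hY]
        rw [mul_pow, yl_pow (g + 1) (Nat.succ_ne_zero g)]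
      rw [h1, ch_half]
      have h3 : ((-1 : ℂ)) ^ l * (-1) ^ l = 1 := by
        rw [← mul_pow]
        norm_num
      have h4 : wl s * zl s = zl s ^ 2 + 1 := by
        unfold wl
        rw [add_mul, inv_mul_cancel₀ (zl_ne_zero s)]
        ring
      linear_combination (-1) * h3 - ((-1 : ℂ)) ^ l * (-1) ^ l * h4 + 0 * h3
    · have h1 := hXn l s
      have h2 := hbn (m : ℕ)
      rw [h] at h1
      have h3 : ‖b m‖ = ‖bb (m : ℕ)‖ := rfl
      rw [h3] at h1
      linarith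
  have hZC : ∀ l : ℕ, ContDiff ℝ 2 fun s => ch g (l : ZMod (2 * g + 2)) ^ (g + 1) * zl s :=
    fun l => contDiff_const.mul contDiff_zl
  have hZ1 : ∀ (l : ℕ) (s : ℝ), ch g (l : ZMod (2 * g + 2)) ^ (g + 1) * zl (s + 1) =
      ch g (l : ZMod (2 * g + 2)) ^ (g + 1) * zl s := by
    intro l s
    rw [zl_add_one]
  refine ⟨b, fun m => ?_, fun l => mkP (hXC l) (hZC l) (hX1 l) (hZ1 l) (hPt l),
    fun l θ x => ?_, ?_⟩
  · have h1 := hroot (y (m : ℕ)) (hyn _).ge
    have h2 : y (m : ℕ) ^ (g + 1) = (-1) ^ (m : ℕ) * (2 * Real.sin (π / M)) := by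
      simp only [hy]
      rw [mul_pow, ch_half, ← Complex.ofReal_pow, hβpow]
      push_cast
      ring
    rw [← h2, ← h1]
  · rw [mkP_e]
    exact Pt.evA_pcst _ _
  · refine hdet _ fun l k => ?_
    rw [Matrix.of_apply, Matrix.of_apply]
    have hlog : ∀ m : ℕ, ContDiff ℝ 2 fun s => Complex.log (1 - bb m / XL l s) := by
      intro m
      rw [contDiff_iff_contDiffAt]
      intro s
      have h1 : ContDiffAt ℝ 2 (fun s => 1 - bb m / XL l s) s := by
        have h2 : ContDiff ℝ 2 fun s => bb m / XL l s := by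
          have h3 : (fun s => bb m / XL l s) = fun s => bb m * (XL l s)⁻¹ := by
            funext s
            rw [div_eq_mul_inv]
          rw [h3]
          exact contDiff_const.mul ((hXC l).inv (hX0 l))
        exact (contDiff_const.sub h2).contDiffAt
      exact ((Complex.contDiffAt_log (one_sub_mem_slitPlane
        ((hbX m l s).trans_lt (by norm_num)))).restrict_scalars ℝ).comp s h1
    have hreg := mkP_reg (F := FF c) (b := b) (X := XL l)
      (ε := ch g ((l : ℕ) : ZMod (2 * g + 2)) ^ (g + 1))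
      (by rw [norm_pow, norm_ch, one_pow]) (hXC l) (hZC l) (hX1 l) (hZ1 l) (hPt l)
      k.castSucc.succ 0
      (h := fun s => Complex.log (1 - bb ((k : ℕ) + 1) / XL l s) -
        Complex.log (1 - bb 0 / XL l s))
      ((hlog _).sub (hlog _)) (fun s => by
        have h1 : ∀ m : ℕ, 1 - bb m / XL l s ≠ 0 := fun m =>
          Complex.slitPlane_ne_zero (one_sub_mem_slitPlane
            ((hbX m l s).trans_lt (by norm_num)))
        rw [Complex.exp_sub, Complex.exp_log (h1 _), Complex.exp_log (h1 _)]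
        have h2 := hX0 l s
        have h3 : ∀ m : ℕ, 1 - bb m / XL l s = (XL l s - bb m) / XL l s := by
          intro m
          field_simp
        rw [h3, h3, div_div_div_cancel_right₀ h2]
        have h4 : b k.castSucc.succ = bb ((k : ℕ) + 1) := by
          simp only [hb]
          simp
        have h5 : b 0 = bb 0 := by
          simp only [hb]
          simp
        rw [h4, h5])
    rw [hreg]
    have hcl : ∀ m : ℕ, Continuous fun s => rho s * Complex.log (1 - bb m / XL l s) := fun m =>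
      continuous_rho.mul (hlog m).continuous
    have hsplit : -(2 * π) * (∫ s in (0 : ℝ)..1, rho s *
        (Complex.log (1 - bb ((k : ℕ) + 1) / XL l s) - Complex.log (1 - bb 0 / XL l s))).re =
        EE (XL l) (bb ((k : ℕ) + 1)) - EE (XL l) (bb 0) := by
      simp only [mul_sub]
      rw [intervalIntegral.integral_sub ((hcl _).intervalIntegrable _ _)
        ((hcl _).intervalIntegrable _ _), Complex.sub_re]
      unfold EE
      ring
    rw [hsplit]
    have h1 := hEE ((k : ℕ) + 1) l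
    have h2 := hEE 0 l
    rw [Nat.cast_zero] at h2
    have h3 : EE (XL l) (bb ((k : ℕ) + 1)) - EE (XL l) (bb 0) -
        (qq g β ((((k : ℕ) + 1 : ℕ) : ZMod (2 * g + 2)) - ((l : ℕ) : ZMod (2 * g + 2))) -
        qq g β (0 - ((l : ℕ) : ZMod (2 * g + 2)))) =
        (EE (XL l) (bb ((k : ℕ) + 1)) -
          qq g β ((((k : ℕ) + 1 : ℕ) : ZMod (2 * g + 2)) - ((l : ℕ) : ZMod (2 * g + 2)))) -
        (EE (XL l) (bb 0) - qq g β (0 - ((l : ℕ) : ZMod (2 * g + 2)))) := by ring
    rw [h3]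
    refine lt_of_le_of_lt (abs_sub _ _) ?_
    linarith

end main

end Pool.Agent.TH826.HD
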