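import Pool.Agent.TH826.HD.Loop
set_option autoImplicit false

/-!
The loop `(y(s), z(s))` in the curve `z + 1/z = y ^ N`.
-/

namespace Pool.Agent.TH826.HD

open scoped Real ComplexConjugate

section basic

variable (s : ℝ)

/-- `sin 2 π s` -/
noncomputable def sS (s : ℝ) : ℝ := Real.sin (2 * π * s)

/-- `cos 2 π s` -/
noncomputable def cC (s : ℝ) : ℝ := Real.cos (2 * π * s)

theorem sq_add : sS s ^ 2 + cC s ^ 2 = 1 := Real.sin_sq_add_cos_sq _

theorem sS_add_one : sS (s + 1) = sS s := by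
  unfold sS
  rw [mul_add, mul_one, Real.sin_add_two_pi]

theorem cC_add_one : cC (s + 1) = cC s := by
  unfold cC
  rw [mul_add, mul_one, Real.cos_add_two_pi]

theorem sS_half_sub : sS (1 / 2 - s) = sS s := by
  unfold sS
  have : 2 * π * (1 / 2 - s) = π - 2 * π * s := by ring
  rw [this, Real.sin_pi_sub]

theorem cC_half_sub : cC (1 / 2 - s) = -cC s := by
  unfold cC
  have : 2 * π * (1 / 2 - s) = π - 2 * π * s := by ring
  rw [this, Real.cos_pi_sub]

theorem zl_eq : zl s = Complex.exp (sS s) * (cC s + sS s * Complex.I) := by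
  unfold zl tt sS cC
  have h1 : 2 * (π : ℂ) * Complex.I * s = ((2 * π * s : ℝ) : ℂ) * Complex.I := by
    push_cast
    ring
  rw [h1, add_comm, Complex.exp_add, Complex.exp_mul_I, Complex.ofReal_cos, Complex.ofReal_sin]

theorem zl_inv_eq : (zl s)⁻¹ = Complex.exp (-sS s) * (cC s - sS s * Complex.I) := by
  rw [inv_eq_iff_eq_inv]
  refine eq_inv_of_mul_eq_one_left ?_
  rw [zl_eq]
  have h1 : Complex.exp (sS s) * Complex.exp (-sS s) = 1 := by
    rw [← Complex.exp_add, add_neg_cancel, Complex.exp_zero]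
  have h2 : ((cC s : ℂ) + sS s * Complex.I) * (cC s - sS s * Complex.I) = 1 := by
    have h3 : ((sS s : ℂ)) ^ 2 + (cC s : ℂ) ^ 2 = 1 := by exact_mod_cast sq_add s
    have h4 := Complex.I_sq
    linear_combination h3 - (sS s : ℂ) ^ 2 * h4
  linear_combination ((cC s : ℂ) + sS s * Complex.I) * (cC s - sS s * Complex.I) * h1 + h2

theorem wl_eq : wl s = ((2 * Real.cosh (sS s) * cC s : ℝ) : ℂ) +
    ((2 * Real.sinh (sS s) * sS s : ℝ) : ℂ) * Complex.I := by
  unfold wl
  rw [zl_inv_eq, zl_eq]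
  have h1 : (Real.cosh (sS s) : ℂ) = (Complex.exp (sS s) + Complex.exp (-sS s)) / 2 := by
    rw [Complex.ofReal_cosh, Complex.cosh]
  have h2 : (Real.sinh (sS s) : ℂ) = (Complex.exp (sS s) - Complex.exp (-sS s)) / 2 := by
    rw [Complex.ofReal_sinh, Complex.sinh]
  push_cast
  rw [← Complex.ofReal_cosh, ← Complex.ofReal_sinh, h1, h2]
  ring

/-- `-i w(s)` -/
noncomputable def vl (s : ℝ) : ℂ := -Complex.I * wl s

theorem vl_re : (vl s).re = 2 * Real.sinh (sS s) * sS s := by
  unfold vl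
  rw [wl_eq]
  simp only [Complex.mul_re, Complex.neg_re, Complex.I_re, Complex.neg_im, Complex.I_im,
    Complex.add_im, Complex.add_re, Complex.ofReal_re, Complex.ofReal_im, Complex.mul_im]
  ring

theorem vl_im : (vl s).im = -(2 * Real.cosh (sS s) * cC s) := by
  unfold vl
  rw [wl_eq]
  simp only [Complex.mul_re, Complex.neg_re, Complex.I_re, Complex.neg_im, Complex.I_im,
    Complex.add_im, Complex.add_re, Complex.ofReal_re, Complex.ofReal_im, Complex.mul_im]
  ring

theorem sinh_mul_ge (x : ℝ) : x ^ 2 ≤ Real.sinh x * x := by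
  rcases le_total 0 x with h | h
  · have h1 := Real.self_le_sinh_iff.2 h
    nlinarith
  · have h1 := Real.sinh_le_self_iff.2 h
    nlinarith

theorem vl_re_ge : 2 * sS s ^ 2 ≤ (vl s).re := by
  rw [vl_re]
  have := sinh_mul_ge (sS s)
  linarith

theorem vl_re_nonneg : 0 ≤ (vl s).re := by
  have h1 := vl_re_ge s
  have h2 := sq_nonneg (sS s)
  linarith

theorem vl_mem : vl s ∈ Complex.slitPlane := by
  rw [Complex.mem_slitPlane_iff]
  by_cases h : cC s = 0
  · left
    have h1 := sq_add s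
    rw [h] at h1
    have h2 := vl_re_ge s
    nlinarith
  · right
    rw [vl_im, neg_ne_zero]
    have := Real.cosh_pos (sS s)
    exact mul_ne_zero (by positivity) h

theorem norm_vl : ‖vl s‖ = ‖wl s‖ := by
  unfold vl
  rw [norm_mul, norm_neg, Complex.norm_I, one_mul]

theorem two_le_norm_wl : 2 ≤ ‖wl s‖ := by
  rw [← norm_vl]
  have h1 : (2 : ℝ) ^ 2 ≤ ‖vl s‖ ^ 2 := by
    rw [Complex.sq_norm, Complex.normSq_apply, vl_re, vl_im]
    have h2 := sinh_mul_ge (sS s)
    have h3 := sq_add s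
    have h4 := Real.cosh_sq (sS s)
    have h5 : (sS s) ^ 2 ≤ Real.sinh (sS s) ^ 2 := by
      have h6 : 0 ≤ (Real.sinh (sS s) - sS s) ^ 2 := sq_nonneg _
      nlinarith
    have h7 : 2 * Real.sinh (sS s) * sS s * (2 * Real.sinh (sS s) * sS s) +
        -(2 * Real.cosh (sS s) * cC s) * -(2 * Real.cosh (sS s) * cC s) =
        4 * (Real.sinh (sS s) ^ 2 * sS s ^ 2 + Real.cosh (sS s) ^ 2 * cC s ^ 2) := by ring
    rw [h7, h4]
    have h8 : Real.sinh (sS s) ^ 2 * sS s ^ 2 + (Real.sinh (sS s) ^ 2 + 1) * cC s ^ 2 =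
        Real.sinh (sS s) ^ 2 * (sS s ^ 2 + cC s ^ 2) + cC s ^ 2 := by ring
    rw [h8, h3]
    nlinarith
  exact le_of_sq_le_sq h1 (norm_nonneg _)

theorem zl_add_one : zl (s + 1) = zl s := by
  rw [zl_eq, zl_eq, sS_add_one, cC_add_one]

theorem wl_add_one : wl (s + 1) = wl s := by
  unfold wl
  rw [zl_add_one]

theorem vl_add_one : vl (s + 1) = vl s := by
  unfold vl
  rw [wl_add_one]

theorem vl_half_sub : vl (1 / 2 - s) = conj (vl s) := by
  apply Complex.ext
  · rw [Complex.conj_re, vl_re, vl_re, sS_half_sub]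
  · rw [Complex.conj_im, vl_im, vl_im, sS_half_sub, cC_half_sub]
    ring

/-- `log (-i w(s))` -/
noncomputable def Lw (s : ℝ) : ℂ := Complex.log (vl s)

theorem Lw_add_one : Lw (s + 1) = Lw s := by
  unfold Lw
  rw [vl_add_one]

theorem Lw_half_sub : Lw (1 / 2 - s) = conj (Lw s) := by
  unfold Lw
  rw [vl_half_sub, Complex.log_conj]
  exact (Complex.mem_slitPlane_iff_arg.1 (vl_mem s)).1

theorem contDiff_vl : ContDiff ℝ 2 vl := by
  unfold vl wl
  exact contDiff_const.mul (contDiff_zl.add (contDiff_zl.inv zl_ne_zero))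

theorem contDiff_Lw : ContDiff ℝ 2 Lw := by
  rw [contDiff_iff_contDiffAt]
  intro s
  exact ((Complex.contDiffAt_log (vl_mem s)).restrict_scalars ℝ).comp s contDiff_vl.contDiffAt

theorem abs_im_Lw : |(Lw s).im| ≤ π / 2 := by
  unfold Lw
  rw [Complex.log_im]
  exact Complex.abs_arg_le_pi_div_two_iff.2 (vl_re_nonneg s)

/-- the sign of the argument -/
theorem cC_mul_im_nonpos : cC s * (Lw s).im ≤ 0 := by
  unfold Lw
  rw [Complex.log_im]
  have hc := Real.cosh_pos (sS s)
  rcases lt_trichotomy (cC s) 0 with h | h | h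
  · have h1 : 0 ≤ Complex.arg (vl s) := by
      rw [Complex.arg_nonneg_iff, vl_im]
      nlinarith
    exact mul_nonpos_of_nonpos_of_nonneg h.le h1
  · rw [h, zero_mul]
  · have h1 : Complex.arg (vl s) < 0 := by
      rw [Complex.arg_neg_iff, vl_im]
      nlinarith
    exact mul_nonpos_of_nonneg_of_nonpos h.le h1.le

end basic

section root

variable (N : ℕ)

/-- the `N`-th root `y(s)` of `w(s)` -/
noncomputable def yl (s : ℝ) : ℂ := Complex.exp ((Lw s + Complex.I * (π / 2)) / N)

theorem yl_ne_zero (s : ℝ) : yl N s ≠ 0 := Complex.exp_ne_zero _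

theorem yl_add_one (s : ℝ) : yl N (s + 1) = yl N s := by
  unfold yl
  rw [Lw_add_one]

theorem contDiff_yl : ContDiff ℝ 2 (yl N) := by
  unfold yl
  exact ((contDiff_Lw.add contDiff_const).div_const _).cexp

theorem exp_half_pi : Complex.exp (Complex.I * (π / 2)) = Complex.I := by
  have h1 : Complex.I * (π / 2) = (π / 2 : ℂ) * Complex.I := by ring
  rw [h1, Complex.exp_mul_I]
  have h2 : (π / 2 : ℂ) = ((π / 2 : ℝ) : ℂ) := by push_cast; rfl
  rw [h2, ← Complex.ofReal_cos, ← Complex.ofReal_sin, Real.cos_pi_div_two, Real.sin_pi_div_two]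
  simp

theorem yl_pow (hN : N ≠ 0) (s : ℝ) : yl N s ^ N = wl s := by
  unfold yl
  rw [← Complex.exp_nat_mul]
  have h0 : (N : ℂ) ≠ 0 := by exact_mod_cast hN
  rw [mul_div_cancel₀ _ h0, Complex.exp_add, exp_half_pi]
  unfold Lw
  rw [Complex.exp_log]
  · unfold vl
    linear_combination (-wl s) * Complex.I_sq
  · exact Complex.slitPlane_ne_zero (vl_mem s)

theorem one_le_norm_yl (hN : N ≠ 0) (s : ℝ) : 1 ≤ ‖yl N s‖ := by
  by_contra h
  push Not at h
  have h1 : ‖yl N s‖ ^ N < 1 := pow_lt_one₀ (norm_nonneg _) h hN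
  rw [← norm_pow, yl_pow N hN] at h1
  have := two_le_norm_wl s
  linarith

/-- the primitive root of unity `exp (i π / N)` -/
noncomputable def eta : ℂ := Complex.exp (Complex.I * π / N)

theorem yl_half_sub (s : ℝ) : yl N (1 / 2 - s) = eta N * conj (yl N s) := by
  unfold yl eta
  rw [Lw_half_sub, ← Complex.exp_conj, ← Complex.exp_add]
  congr 1
  simp only [map_div₀, map_add, map_mul, Complex.conj_I, Complex.conj_ofReal, map_ofNat,
    map_natCast]
  ring

theorem rho_half_sub (s : ℝ) : rho (1 / 2 - s) = conj (rho s) := by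
  have h := cC_half_sub s
  unfold cC at h
  unfold rho
  rw [h]
  simp only [map_sub, map_one, map_mul, Complex.conj_I, Complex.conj_ofReal]
  push_cast
  ring

theorem rho_add_one (s : ℝ) : rho (s + 1) = rho s := by
  have h := cC_add_one s
  unfold cC at h
  unfold rho
  rw [h]

theorem norm_rho_le (s : ℝ) : ‖rho s‖ ≤ 2 := by
  unfold rho
  refine (norm_sub_le _ _).trans ?_
  rw [norm_one, norm_mul, Complex.norm_I, one_mul, Complex.norm_real, Real.norm_eq_abs]
  have := Real.abs_cos_le_one (2 * π * s)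
  linarith

theorem rho_re (s : ℝ) : (rho s).re = 1 := by
  unfold rho
  rw [Complex.sub_re, Complex.mul_re, Complex.ofReal_re, Complex.ofReal_im]
  simp

theorem rho_im (s : ℝ) : (rho s).im = -cC s := by
  unfold rho cC
  rw [Complex.sub_im, Complex.mul_im, Complex.ofReal_re, Complex.ofReal_im]
  simp

end root

end Pool.Agent.TH826.HD
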