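import Pool.Agent.TH826.HD.Path
set_option autoImplicit false

/-!
The regulators of the curve `z + 1/z = y ^ N`: expansion at `b = 0` and reflection.
-/

namespace Pool.Agent.TH826.HD

open MeasureTheory

open scoped Real ComplexConjugate

section E

/-- The regulator of `{z, 1 - b / X}` along the loop `(X(s), z(s))`. -/
noncomputable def EE (X : ℝ → ℂ) (b : ℂ) : ℝ :=
  -(2 * π) * (∫ s in (0 : ℝ)..1, rho s * Complex.log (1 - b / X s)).re

variable (N : ℕ)

/-- the integral of `(1 - i cos 2 π s) y(s) ^ (-n)` -/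
noncomputable def Kn (n : ℕ) : ℂ := ∫ s in (0 : ℝ)..1, rho s * ((yl N s)⁻¹) ^ n

theorem continuous_yl : Continuous (yl N) := (contDiff_yl N).continuous

theorem continuous_yl_inv : Continuous fun s => (yl N s)⁻¹ :=
  (continuous_yl N).inv₀ (yl_ne_zero N)

/-- the positivity of the integrals -/
theorem Kn_pos {n : ℕ} (hn : n < N) :
    0 < (Complex.exp (Complex.I * (π / 2) * n / N) * Kn N n).re := by
  have hN0 : (N : ℂ) ≠ 0 := by exact_mod_cast (by omega : N ≠ 0)
  have hNr : (0 : ℝ) < N := by exact_mod_cast (by omega : 0 < N)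
  have h1 : Complex.exp (Complex.I * (π / 2) * n / N) * Kn N n =
      ∫ s in (0 : ℝ)..1, rho s * Complex.exp (-(n / N : ℝ) * Lw s) := by
    unfold Kn
    rw [← intervalIntegral.integral_const_mul]
    refine intervalIntegral.integral_congr fun s _ => ?_
    show Complex.exp (Complex.I * (π / 2) * n / N) * (rho s * (yl N s)⁻¹ ^ n) =
      rho s * Complex.exp (-(n / N : ℝ) * Lw s)
    unfold yl
    rw [← Complex.exp_neg, ← Complex.exp_nat_mul]
    have h2 : Complex.exp (Complex.I * (π / 2) * n / N) *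
        Complex.exp (n * -((Lw s + Complex.I * (π / 2)) / N)) =
        Complex.exp (-(n / N : ℝ) * Lw s) := by
      rw [← Complex.exp_add]
      congr 1
      push_cast
      field_simp
      ring
    rw [← h2]
    ring
  have hcont : Continuous fun s => rho s * Complex.exp (-(n / N : ℝ) * Lw s) :=
    continuous_rho.mul (continuous_const.mul contDiff_Lw.continuous).cexp
  have hre : (∫ s in (0 : ℝ)..1, rho s * Complex.exp (-(n / N : ℝ) * Lw s)).re =
      ∫ s in (0 : ℝ)..1, (rho s * Complex.exp (-(n / N : ℝ) * Lw s)).re :=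
    (Complex.reCLM.intervalIntegral_comp_comm (a := 0) (b := 1) (μ := volume)
      (hcont.intervalIntegrable 0 1)).symm
  rw [h1, hre]
  refine intervalIntegral.intervalIntegral_pos_of_pos
    ((Complex.continuous_re.comp hcont).intervalIntegrable _ _) (fun s => ?_) zero_lt_one
  set α : ℝ := -(n / N : ℝ) * (Lw s).im with hα
  have hq0 : (0 : ℝ) ≤ n / N := by positivity
  have hq1 : (n : ℝ) / N < 1 := by
    rw [div_lt_one hNr]
    exact_mod_cast hn
  have him := abs_im_Lw s
  have hαabs : |α| < π / 2 := by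
    rw [hα, abs_mul, abs_neg, abs_of_nonneg hq0]
    have hpi := Real.pi_pos
    calc (n : ℝ) / N * |(Lw s).im| ≤ n / N * (π / 2) := mul_le_mul_of_nonneg_left him hq0
      _ < 1 * (π / 2) := mul_lt_mul_of_pos_right hq1 (by linarith)
      _ = π / 2 := one_mul _
  have hcos : 0 < Real.cos α := Real.cos_pos_of_mem_Ioo (abs_lt.1 hαabs)
  have hcα : 0 ≤ cC s * α := by
    have h3 := cC_mul_im_nonpos s
    have h4 : cC s * α = (n / N) * (-(cC s * (Lw s).im)) := by rw [hα]; ring
    rw [h4]
    exact mul_nonneg hq0 (by linarith)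
  have hsin : 0 ≤ cC s * Real.sin α := by
    have hl := abs_lt.1 hαabs
    have hpi := Real.pi_pos
    rcases lt_trichotomy α 0 with h | h | h
    · have h5 : cC s ≤ 0 := by
        by_contra hc
        push Not at hc
        have := mul_neg_of_pos_of_neg hc h
        linarith
      have h6 : Real.sin α ≤ 0 := Real.sin_nonpos_of_nonpos_of_neg_pi_le h.le (by linarith)
      exact mul_nonneg_of_nonpos_of_nonpos h5 h6
    · rw [h, Real.sin_zero, mul_zero]
    · have h5 : 0 ≤ cC s := by
        by_contra hc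
        push Not at hc
        have := mul_neg_of_neg_of_pos hc h
        linarith
      have h6 : 0 ≤ Real.sin α := Real.sin_nonneg_of_nonneg_of_le_pi h.le (by linarith)
      exact mul_nonneg h5 h6
  have hval : (rho s * Complex.exp (-(n / N : ℝ) * Lw s)).re =
      Real.exp (-(n / N : ℝ) * (Lw s).re) * (Real.cos α + cC s * Real.sin α) := by
    have h7 : (-((n / N : ℝ) : ℂ) * Lw s).re = -(n / N : ℝ) * (Lw s).re := by
      rw [← Complex.ofReal_neg, Complex.re_ofReal_mul]
    have h8 : (-((n / N : ℝ) : ℂ) * Lw s).im = α := by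
      rw [← Complex.ofReal_neg, Complex.im_ofReal_mul]
    rw [Complex.mul_re, rho_re, rho_im, Complex.exp_re, Complex.exp_im, h7, h8]
    ring
  rw [hval]
  exact mul_pos (Real.exp_pos _) (by linarith)

theorem Kn_ne_zero {n : ℕ} (hn : n < N) : Kn N n ≠ 0 := by
  intro h
  have h1 := Kn_pos N hn
  rw [h, mul_zero, Complex.zero_re] at h1
  exact lt_irrefl _ h1

/-- the Taylor polynomial of the logarithm -/
theorem norm_log_add_le {N : ℕ} (hN : N ≠ 0) {u : ℂ} (hu : ‖u‖ ≤ 1 / 2) :
    ‖Complex.log (1 - u) + ∑ j ∈ Finset.range N, u ^ j / j‖ ≤ 2 * ‖u‖ ^ N := by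
  obtain ⟨n, rfl⟩ := Nat.exists_eq_succ_of_ne_zero hN
  have h1 := Complex.norm_log_sub_logTaylor_le n (z := -u) (by rw [norm_neg]; linarith)
  have h2 : Complex.logTaylor (n + 1) (-u) = -∑ j ∈ Finset.range (n + 1), u ^ j / j := by
    unfold Complex.logTaylor
    rw [← Finset.sum_neg_distrib]
    refine Finset.sum_congr rfl fun j _ => ?_
    rw [neg_pow u j, pow_succ]
    have h3 : ((-1 : ℂ)) ^ j * (-1) ^ j = 1 := by
      rw [← mul_pow]
      norm_num
    linear_combination (-(u ^ j / (j : ℂ))) * h3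
  rw [h2, sub_neg_eq_add, ← sub_eq_add_neg, norm_neg] at h1
  refine h1.trans ?_
  have h4 : (1 - ‖u‖)⁻¹ ≤ 2 := by
    rw [inv_le_comm₀ (by linarith) (by norm_num)]
    linarith
  have h5 : (1 : ℝ) ≤ n + 1 := by
    have : (0 : ℝ) ≤ n := Nat.cast_nonneg n
    linarith
  rw [div_le_iff₀ (by linarith)]
  have h6 : 0 ≤ ‖u‖ ^ (n + 1) := by positivity
  calc ‖u‖ ^ (n + 1) * (1 - ‖u‖)⁻¹ ≤ ‖u‖ ^ (n + 1) * 2 := mul_le_mul_of_nonneg_left h4 h6
    _ = 2 * ‖u‖ ^ (n + 1) * 1 := by ring
    _ ≤ 2 * ‖u‖ ^ (n + 1) * (n + 1) := mul_le_mul_of_nonneg_left h5 (by positivity)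

theorem norm_div_yl_le (hN : N ≠ 0) (b : ℂ) (s : ℝ) : ‖b / yl N s‖ ≤ ‖b‖ := by
  rw [norm_div]
  exact div_le_self (norm_nonneg _) (one_le_norm_yl N hN s)

theorem one_sub_mem_slitPlane {u : ℂ} (hu : ‖u‖ < 1) : 1 - u ∈ Complex.slitPlane := by
  rw [Complex.mem_slitPlane_iff]
  left
  rw [Complex.sub_re, Complex.one_re]
  have := Complex.re_le_norm u
  linarith

theorem continuous_log_one_sub {f : ℝ → ℂ} (hf : Continuous f) (h : ∀ s, ‖f s‖ < 1) :
    Continuous fun s => Complex.log (1 - f s) :=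
  (continuous_const.sub hf).clog fun s => one_sub_mem_slitPlane (h s)

theorem EE_taylor (hN : N ≠ 0) {b : ℂ} (hb : ‖b‖ ≤ 1 / 2) :
    |EE (yl N) b - 2 * π * (∑ j ∈ Finset.range N, b ^ j / j * Kn N j).re| ≤
      8 * π * ‖b‖ ^ N := by
  have hcl : Continuous fun s => rho s * Complex.log (1 - b / yl N s) := by
    refine continuous_rho.mul (continuous_log_one_sub ?_ fun s =>
      (norm_div_yl_le N hN b s).trans_lt (by linarith))
    exact continuous_const.div (continuous_yl N) (yl_ne_zero N)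
  have hcp : ∀ j : ℕ, Continuous fun s => rho s * (yl N s)⁻¹ ^ j := fun j =>
    continuous_rho.mul ((continuous_yl_inv N).pow j)
  have h1 : ∑ j ∈ Finset.range N, b ^ j / j * Kn N j =
      ∫ s in (0 : ℝ)..1, ∑ j ∈ Finset.range N, b ^ j / j * (rho s * (yl N s)⁻¹ ^ j) := by
    have hii : ∀ j ∈ Finset.range N, IntervalIntegrable
        (fun s => b ^ j / j * (rho s * (yl N s)⁻¹ ^ j)) volume 0 1 := fun j _ =>
      (continuous_const.mul (hcp j)).intervalIntegrable _ _
    rw [intervalIntegral.integral_finsetSum hii]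
    refine Finset.sum_congr rfl fun j _ => ?_
    rw [intervalIntegral.integral_const_mul]
    rfl
  have hcs : Continuous fun s => ∑ j ∈ Finset.range N, b ^ j / j * (rho s * (yl N s)⁻¹ ^ j) :=
    continuous_finsetSum _ fun j _ => continuous_const.mul (hcp j)
  have h2 : EE (yl N) b - 2 * π * (∑ j ∈ Finset.range N, b ^ j / j * Kn N j).re =
      -(2 * π) * (∫ s in (0 : ℝ)..1, (rho s * Complex.log (1 - b / yl N s) +
        ∑ j ∈ Finset.range N, b ^ j / j * (rho s * (yl N s)⁻¹ ^ j))).re := by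
    rw [intervalIntegral.integral_add (hcl.intervalIntegrable _ _) (hcs.intervalIntegrable _ _),
      Complex.add_re, h1]
    unfold EE
    ring
  have h3 : ‖∫ s in (0 : ℝ)..1, (rho s * Complex.log (1 - b / yl N s) +
        ∑ j ∈ Finset.range N, b ^ j / j * (rho s * (yl N s)⁻¹ ^ j))‖ ≤
      (4 * ‖b‖ ^ N) * |1 - 0| := by
    refine intervalIntegral.norm_integral_le_of_norm_le_const fun s _ => ?_
    have h4 : rho s * Complex.log (1 - b / yl N s) +
        ∑ j ∈ Finset.range N, b ^ j / j * (rho s * (yl N s)⁻¹ ^ j) =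
        rho s * (Complex.log (1 - b / yl N s) +
          ∑ j ∈ Finset.range N, (b / yl N s) ^ j / j) := by
      rw [mul_add, Finset.mul_sum]
      congr 1
      refine Finset.sum_congr rfl fun j _ => ?_
      rw [div_eq_mul_inv b, mul_pow]
      ring
    rw [h4, norm_mul]
    have h5 := norm_div_yl_le N hN b s
    have h6 := norm_log_add_le hN (u := b / yl N s) (h5.trans hb)
    calc ‖rho s‖ * ‖Complex.log (1 - b / yl N s) + ∑ j ∈ Finset.range N, (b / yl N s) ^ j / j‖
        ≤ 2 * (2 * ‖b / yl N s‖ ^ N) := mul_le_mul (norm_rho_le s) h6 (norm_nonneg _) (by norm_num)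
      _ ≤ 2 * (2 * ‖b‖ ^ N) := by
          have h7 : ‖b / yl N s‖ ^ N ≤ ‖b‖ ^ N := pow_le_pow_left₀ (norm_nonneg _) h5 N
          linarith
      _ = 4 * ‖b‖ ^ N := by ring
  rw [h2, abs_mul, abs_neg, abs_of_pos (by have := Real.pi_pos; positivity : (0 : ℝ) < 2 * π)]
  have h8 := (Complex.abs_re_le_norm _).trans h3
  rw [sub_zero, abs_one, mul_one] at h8
  have hpi := Real.pi_pos
  calc 2 * π * |_| ≤ 2 * π * (4 * ‖b‖ ^ N) := mul_le_mul_of_nonneg_left h8 (by positivity)
    _ = 8 * π * ‖b‖ ^ N := by ring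

theorem EE_reflect (hN : N ≠ 0) {b : ℂ} (hb : ‖b‖ < 1) :
    EE (yl N) (eta N * conj b) = EE (yl N) b := by
  unfold EE
  congr 1
  have hlt : ∀ s, ‖b / yl N s‖ < 1 := fun s => (norm_div_yl_le N hN b s).trans_lt hb
  have hper : Function.Periodic
      (fun s => rho s * Complex.log (1 - eta N * conj b / yl N s)) 1 := by
    intro s
    show rho (s + 1) * Complex.log (1 - eta N * conj b / yl N (s + 1)) = _
    rw [rho_add_one, yl_add_one]
  have h1 : ∫ s in (0 : ℝ)..1, rho s * Complex.log (1 - eta N * conj b / yl N s) =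
      ∫ s in (0 : ℝ)..1, rho (1 / 2 - s) *
        Complex.log (1 - eta N * conj b / yl N (1 / 2 - s)) := by
    rw [intervalIntegral.integral_comp_sub_left
      (fun s => rho s * Complex.log (1 - eta N * conj b / yl N s)) (1 / 2 : ℝ)]
    have h2 := hper.intervalIntegral_add_eq 0 (1 / 2 - 1)
    rw [zero_add] at h2
    rw [h2]
    congr 1
    norm_num
  have h3 : ∀ s, rho (1 / 2 - s) * Complex.log (1 - eta N * conj b / yl N (1 / 2 - s)) =
      conj (rho s * Complex.log (1 - b / yl N s)) := by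
    intro s
    rw [rho_half_sub, yl_half_sub, map_mul, ← Complex.log_conj]
    · congr 2
      rw [map_sub, map_one, map_div₀, mul_div_mul_left]
      exact Complex.exp_ne_zero _
    · exact (Complex.mem_slitPlane_iff_arg.1 (one_sub_mem_slitPlane (hlt s))).1
  rw [h1]
  simp only [h3]
  have hcl : Continuous fun s => rho s * Complex.log (1 - b / yl N s) := by
    refine continuous_rho.mul (continuous_log_one_sub ?_ hlt)
    exact continuous_const.div (continuous_yl N) (yl_ne_zero N)
  have hre : ∀ f : ℝ → ℂ, Continuous f → (∫ s in (0 : ℝ)..1, f s).re =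
      ∫ s in (0 : ℝ)..1, (f s).re := fun f hf =>
    (Complex.reCLM.intervalIntegral_comp_comm (a := 0) (b := 1) (μ := volume)
      (hf.intervalIntegrable 0 1)).symm
  rw [hre (fun s => conj (rho s * Complex.log (1 - b / yl N s)))
    (Complex.continuous_conj.comp hcl), hre _ hcl]
  refine intervalIntegral.integral_congr fun s _ => ?_
  exact Complex.conj_re _

end E

end Pool.Agent.TH826.HD
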