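import Pool.Agent.TH826.MK.Milnor
set_option autoImplicit false

/-!
The hyperelliptic curves `z + 1/z = F(x)` and the symbols `{z, (x - b)/(x - b')}`, where the values
of `z` at the points with `x = b` and `x = b'` are roots of unity.
-/

namespace Pool.Agent.TH826.HD

open scoped WithZero

open Polynomial

open Pool.Agent.TH826.MK (KQ symb unitPart)

/-- The subspace of `K_n^M(L) ⊗ ℚ` of the elements that are unramified at all discrete valuations
of `L` that are trivial on the field `K`. -/
noncomputable def UnramifiedOver {K L : Type*} [Field K] [Field L] (k : K →+* L) (n : ℕ) :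
    Submodule ℚ (KQ L n) :=
  ⨅ (v : Valuation L ℤᵐ⁰) (_ : Function.Surjective v) (_ : ∀ x : K, x ≠ 0 → v (k x) = 1),
    unitPart v n

section Ring

variable {K : Type*} [Field K] (F : K[X])

/-- The polynomial `z² - F z + 1`. -/
noncomputable def peqn : K[X][X] := X ^ 2 - C F * X + 1

/-- The coordinate ring of the plane curve `z² - F(x) z + 1 = 0`. -/
def PRing : Type _ := AdjoinRoot (peqn F)

noncomputable instance : CommRing (PRing F) := AdjoinRoot.instCommRing (peqn F)

/-- The polynomials in `x` as functions on the curve. -/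
noncomputable def ppol : K[X] →+* PRing F := AdjoinRoot.of (peqn F)

/-- The function `z`. -/
noncomputable def pz : PRing F := AdjoinRoot.root (peqn F)

theorem pz_eq : pz F ^ 2 - ppol F F * pz F + 1 = 0 := by
  have h := AdjoinRoot.mk_self (f := peqn F)
  have h2 : AdjoinRoot.mk (peqn F) (peqn F) = AdjoinRoot.root (peqn F) ^ 2 -
      AdjoinRoot.of _ F * AdjoinRoot.root (peqn F) + 1 := by
    conv_lhs => rw [show AdjoinRoot.mk (peqn F) (peqn F) =
      AdjoinRoot.mk (peqn F) (X ^ 2 - C F * X + 1) from rfl]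
    rw [map_add, map_sub, map_mul, map_pow, map_one, AdjoinRoot.mk_X, AdjoinRoot.mk_C]
  rw [h2] at h
  exact h

theorem pz_mul : pz F * (ppol F F - pz F) = 1 := by
  linear_combination -(pz_eq F)

variable {n : ℕ} (b : Fin n → K)

/-- The function `Δ = ∏_m (x - b_m)`. -/
noncomputable def pDel : PRing F := ppol F (∏ m, (X - C (b m)))

/-- The polynomial `Δ T - 1`. -/
noncomputable def peqnO : (PRing F)[X] := C (pDel F b) * X - 1

/-- The coordinate ring of the open part `∏_m (x - b_m) ≠ 0` of the curve: the ring obtained from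
the coordinate ring of the curve by adjoining `T` with `∏_m (x - b_m) T = 1`. -/
def POpen : Type _ := AdjoinRoot (peqnO F b)

noncomputable instance : CommRing (POpen F b) := AdjoinRoot.instCommRing (peqnO F b)

/-- The restriction of functions to the open part. -/
noncomputable def toP : PRing F →+* POpen F b := AdjoinRoot.of (peqnO F b)

/-- The constants. -/
noncomputable def pcst : K →+* POpen F b := (toP F b).comp ((ppol F).comp C)

theorem isUnit_pDel : IsUnit (toP F b (pDel F b)) := by
  have h := AdjoinRoot.mk_self (f := peqnO F b)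
  have h2 : AdjoinRoot.mk (peqnO F b) (peqnO F b) =
      AdjoinRoot.of (peqnO F b) (pDel F b) * AdjoinRoot.root (peqnO F b) - 1 := by
    conv_lhs => rw [show AdjoinRoot.mk (peqnO F b) (peqnO F b) =
      AdjoinRoot.mk (peqnO F b) (C (pDel F b) * X - 1) from rfl]
    rw [map_sub, map_mul, map_one, AdjoinRoot.mk_X, AdjoinRoot.mk_C]
  rw [h2, sub_eq_zero] at h
  exact IsUnit.of_mul_eq_one _ h

theorem isUnit_px (m : Fin n) : IsUnit (toP F b (ppol F (X - C (b m)))) := by
  refine isUnit_of_dvd_unit (map_dvd _ (map_dvd _ ?_)) (isUnit_pDel F b)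
  exact Finset.dvd_prod_of_mem (fun m => X - C (b m)) (Finset.mem_univ m)

theorem isUnit_pz : IsUnit (toP F b (pz F)) := (IsUnit.of_mul_eq_one _ (pz_mul F)).map _

/-- The unit `z`. -/
noncomputable def uz : (POpen F b)ˣ := (isUnit_pz F b).unit

/-- The unit `x - b_m`. -/
noncomputable def ux (m : Fin n) : (POpen F b)ˣ := (isUnit_px F b m).unit

theorem coe_uz : (uz F b : POpen F b) = toP F b (pz F) := rfl

theorem coe_ux (m : Fin n) : (ux F b m : POpen F b) = toP F b (ppol F (X - C (b m))) := rfl

/-- The entries `z`, `(x - b_m) / (x - b_l)` of the symbol `{z, (x - b_m) / (x - b_l)}`. -/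
noncomputable def pent (m l : Fin n) : Fin 2 → (POpen F b)ˣ := ![uz F b, ux F b m / ux F b l]

end Ring

section Domain

variable {K : Type*} [Field K] {F : K[X]}

variable (F) in
theorem monic_peqn : (peqn F).Monic := by
  unfold peqn
  monicity!

variable (F) in
theorem natDegree_peqn : (peqn F).natDegree = 2 := by
  unfold peqn
  compute_degree!

theorem irreducible_peqn (hF : 0 < F.natDegree) : Irreducible (peqn F) := by
  rw [(monic_peqn F).irreducible_iff_roots_eq_zero_of_degree_le_three
    (by rw [natDegree_peqn]) (by rw [natDegree_peqn]; norm_num)]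
  rw [Multiset.eq_zero_iff_forall_notMem]
  intro s hs
  rw [mem_roots (monic_peqn F).ne_zero, IsRoot.def] at hs
  have hr' : s ^ 2 - F * s + 1 = 0 := by
    simpa [peqn] using hs
  have h2 : s * (F - s) = 1 := by linear_combination -hr'
  have h3 : IsUnit s := IsUnit.of_mul_eq_one _ h2
  have h4 : IsUnit (F - s) := IsUnit.of_mul_eq_one s (by rw [mul_comm]; exact h2)
  obtain ⟨y, -, hy⟩ := Polynomial.isUnit_iff.1 h3
  obtain ⟨w, -, hw⟩ := Polynomial.isUnit_iff.1 h4
  have h5 : F = C (y + w) := by
    rw [map_add, hy, hw]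
    ring
  rw [h5, natDegree_C] at hF
  exact lt_irrefl _ hF

theorem isDomain_PRing (hF : 0 < F.natDegree) : IsDomain (PRing F) :=
  AdjoinRoot.isDomain_of_prime (irreducible_peqn hF).prime

theorem ppol_ne_zero {p : K[X]} (hp : p ≠ 0) : ppol F p ≠ 0 := by
  intro h
  have h1 : AdjoinRoot.mk (peqn F) (C p) = 0 := h
  rw [AdjoinRoot.mk_eq_zero] at h1
  refine (monic_peqn F).not_dvd_of_natDegree_lt (by simpa using hp) ?_ h1
  rw [natDegree_peqn, natDegree_C]
  norm_num

theorem pDel_ne_zero {n : ℕ} (b : Fin n → K) : pDel F b ≠ 0 := by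
  unfold pDel
  exact ppol_ne_zero (Finset.prod_ne_zero_iff.2 fun m _ => X_sub_C_ne_zero (b m))

end Domain

section LiftP

variable {K : Type*} [Field K] {F : K[X]} {n : ℕ} {b : Fin n → K} {S : Type*} [Field S]

/-- The homomorphism on the coordinate ring of the curve defined by a solution `(x, z)`. -/
noncomputable def evP (k : K →+* S) (x z : S) (h : z ^ 2 - F.eval₂ k x * z + 1 = 0) :
    PRing F →+* S :=
  AdjoinRoot.lift (Polynomial.eval₂RingHom k x) z (by
    unfold peqn
    simp only [Polynomial.eval₂_add, Polynomial.eval₂_sub, Polynomial.eval₂_mul,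
      Polynomial.eval₂_X, Polynomial.eval₂_C, Polynomial.eval₂_one, Polynomial.eval₂_X_pow]
    exact h)

theorem evP_ppol (k : K →+* S) (x z : S) (h : z ^ 2 - F.eval₂ k x * z + 1 = 0) (p : K[X]) :
    evP k x z h (ppol F p) = p.eval₂ k x :=
  AdjoinRoot.lift_of _

theorem evP_pz (k : K →+* S) (x z : S) (h : z ^ 2 - F.eval₂ k x * z + 1 = 0) :
    evP k x z h (pz F) = z :=
  AdjoinRoot.lift_root _

theorem evP_mk (k : K →+* S) (x z : S) (h : z ^ 2 - F.eval₂ k x * z + 1 = 0) (p : K[X][X]) :
    evP k x z h (AdjoinRoot.mk (peqn F) p : AdjoinRoot (peqn F)) =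
      p.eval₂ (Polynomial.eval₂RingHom k x) z :=
  AdjoinRoot.lift_mk _ p

/-- The extension of a homomorphism with `Δ ↦ g Δ ≠ 0` to the ring of the open part. -/
noncomputable def liftP (g : PRing F →+* S) (hg : g (pDel F b) ≠ 0) : POpen F b →+* S :=
  AdjoinRoot.lift g (g (pDel F b))⁻¹ (by
    unfold peqnO
    simp only [Polynomial.eval₂_sub, Polynomial.eval₂_mul, Polynomial.eval₂_X,
      Polynomial.eval₂_C, Polynomial.eval₂_one]
    rw [mul_inv_cancel₀ hg, sub_self])

theorem liftP_toP (g : PRing F →+* S) (hg : g (pDel F b) ≠ 0) (r : PRing F) :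
    liftP g hg (toP F b r) = g r :=
  AdjoinRoot.lift_of _

theorem liftP_mk (g : PRing F →+* S) (hg : g (pDel F b) ≠ 0) (p : (PRing F)[X]) :
    liftP g hg (AdjoinRoot.mk (peqnO F b) p : AdjoinRoot (peqnO F b)) =
      p.eval₂ g (g (pDel F b))⁻¹ :=
  AdjoinRoot.lift_mk _ p

end LiftP

section Unram

variable {K : Type*} [Field K] {F : K[X]} {n : ℕ} {b : Fin n → K}

variable {L : Type*} [Field L] (f : POpen F b →+* L)

/-- the composite map from the coefficient field -/
noncomputable def cP : K →+* L := f.comp (pcst F b)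

/-- the image of `x` -/
noncomputable def xP : L := f (toP F b (ppol F X))

/-- the image of `z` -/
noncomputable def zP : L := f (toP F b (pz F))

theorem map_ppol (p : K[X]) : f (toP F b (ppol F p)) = p.eval₂ (cP f) (xP f) := by
  have h : (f.comp (toP F b)).comp (ppol F) = Polynomial.eval₂RingHom (cP f) (xP f) := by
    refine Polynomial.ringHom_ext (fun a => ?_) ?_
    · rw [Polynomial.coe_eval₂RingHom, Polynomial.eval₂_C]
      rfl
    · rw [Polynomial.coe_eval₂RingHom, Polynomial.eval₂_X]
      rfl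
  exact congrArg (fun h : K[X] →+* L => h p) h

theorem map_ux (m : Fin n) : f (ux F b m : POpen F b) = xP f - cP f (b m) := by
  rw [coe_ux, map_ppol, Polynomial.eval₂_sub, Polynomial.eval₂_X, Polynomial.eval₂_C]

theorem zP_eq : zP f ^ 2 + 1 = F.eval₂ (cP f) (xP f) * zP f := by
  have h := congrArg (fun r => f (toP F b r)) (pz_eq F)
  simp only [map_add, map_sub, map_mul, map_pow, map_one, map_zero] at h
  rw [← map_ppol]
  unfold zP
  linear_combination h

theorem zP_ne_zero : zP f ≠ 0 := ((isUnit_pz F b).map f).ne_zero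

theorem xP_sub_ne_zero (m : Fin n) : xP f - cP f (b m) ≠ 0 := by
  rw [← map_ux]
  exact ((ux F b m).isUnit.map f).ne_zero

variable (v : Valuation L ℤᵐ⁰)

theorem val_cP (hv : ∀ x : K, x ≠ 0 → v (cP f x) = 1) (x : K) : v (cP f x) ≤ 1 := by
  by_cases hx : x = 0
  · rw [hx, map_zero, map_zero]
    exact zero_le_one
  · exact (hv x hx).le

theorem val_eval_le (hv : ∀ x : K, x ≠ 0 → v (cP f x) = 1) (hx : v (xP f) ≤ 1) (p : K[X]) :
    v (p.eval₂ (cP f) (xP f)) ≤ 1 := by
  rw [Polynomial.eval₂_eq_sum_range]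
  refine Valuation.map_sum_le v fun i _ => ?_
  rw [map_mul, map_pow]
  exact mul_le_one' (val_cP f v hv _) (pow_le_one' hx _)

/-- The symbols are unramified at the discrete valuations that are trivial on `K`. -/
theorem symb_mem_unitPart (hv : ∀ x : K, x ≠ 0 → v (cP f x) = 1) (m l : Fin n)
    (hb : ∀ m : Fin n, ∃ (ζ : K) (k : ℕ), k ≠ 0 ∧ ζ ^ k = 1 ∧ F.eval (b m) = ζ + ζ⁻¹) :
    symb (fun i => Units.map (f : POpen F b →* L) (pent F b m l i)) ∈ unitPart v 2 := by
  set a : Fin 2 → Lˣ := fun i => Units.map (f : POpen F b →* L) (pent F b m l i) with ha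
  have ha0 : (a 0 : L) = zP f := rfl
  have ha1 : (a 1 : L) = (xP f - cP f (b m)) / (xP f - cP f (b l)) := by
    rw [← map_ux, ← map_ux]
    have h1 : a 1 = Units.map (f : POpen F b →* L) (ux F b m) /
        Units.map (f : POpen F b →* L) (ux F b l) :=
      map_div (Units.map (f : POpen F b →* L)) _ _
    rw [h1, Units.val_div_eq_div_val]
    rfl
  have hm0 := xP_sub_ne_zero f m
  have hl0 := xP_sub_ne_zero f l
  rcases lt_or_ge 1 (v (xP f)) with hx | hx
  · -- the point at infinity
    refine Pool.Agent.TH826.MK.mem_unitPart_of_oneUnit' v 1 a ?_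
    rw [ha1]
    have e : (xP f - cP f (b m)) / (xP f - cP f (b l)) - 1 =
        cP f (b l - b m) / (xP f - cP f (b l)) := by
      rw [map_sub]
      field_simp
      ring
    rw [e, map_div₀]
    have h1 : v (xP f - cP f (b l)) = v (xP f) :=
      Valuation.map_sub_eq_of_lt_left v ((val_cP f v hv _).trans_lt hx)
    rw [h1, div_lt_one₀ (zero_lt_one.trans hx)]
    exact (val_cP f v hv _).trans_lt hx
  · have hPhi := val_eval_le f v hv hx F
    have hq := zP_eq f
    have hq0 := zP_ne_zero f
    set q := zP f with hqdef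
    set P := F.eval₂ (cP f) (xP f) with hP
    have hq1 : v q = 1 := by
      rcases lt_trichotomy (v q) 1 with h | h | h
      · exfalso
        have h1 : v (q ^ 2 + 1) = 1 := by
          rw [add_comm]
          refine Valuation.map_one_add_of_lt v ?_
          rw [map_pow]
          exact pow_lt_one₀ zero_le h (by norm_num)
        rw [hq, map_mul] at h1
        have h2 : v P * v q < 1 := by
          calc v P * v q ≤ 1 * v q := mul_le_mul_left hPhi _
            _ = v q := one_mul _
            _ < 1 := h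
        exact h2.ne h1
      · exact h
      · exfalso
        have h1 : v (q ^ 2 + 1) = v q ^ 2 := by
          rw [← map_pow]
          refine Valuation.map_add_eq_of_lt_left v ?_
          rw [map_one, map_pow]
          exact one_lt_pow₀ h (by norm_num)
        rw [hq, map_mul, pow_two] at h1
        have h2 : v P = v q := mul_right_cancel₀ ((Valuation.ne_zero_iff v).2 hq0) h1
        rw [h2] at hPhi
        exact absurd h (not_lt.2 hPhi)
    have hle : ∀ r : Fin n, v (xP f - cP f (b r)) ≤ 1 := fun r =>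
      (v.map_sub _ _).trans (max_le hx (val_cP f v hv _))
    by_cases hB : ∃ r : Fin n, v (xP f - cP f (b r)) < 1
    · obtain ⟨r, hr⟩ := hB
      obtain ⟨ζ, k, hk, hζ, hF⟩ := hb r
      have hζ0 : ζ ≠ 0 := by
        intro h
        rw [h, zero_pow hk] at hζ
        exact zero_ne_one hζ
      -- `F(x) - F(b_r)` is small
      have h1 : v (P - cP f (ζ + ζ⁻¹)) < 1 := by
        obtain ⟨Q, hQ⟩ : X - C (b r) ∣ F - C (F.eval (b r)) := by
          rw [Polynomial.dvd_iff_isRoot, Polynomial.IsRoot.def]
          simp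
        have h2 : P - cP f (ζ + ζ⁻¹) =
            (xP f - cP f (b r)) * Q.eval₂ (cP f) (xP f) := by
          have h3 := congrArg (Polynomial.eval₂ (cP f) (xP f)) hQ
          rw [Polynomial.eval₂_sub, Polynomial.eval₂_mul, Polynomial.eval₂_sub,
            Polynomial.eval₂_X, Polynomial.eval₂_C, Polynomial.eval₂_C, hF] at h3
          exact h3
        rw [h2, map_mul]
        exact mul_lt_one_of_lt_of_le hr (val_eval_le f v hv hx Q)
      have h4 : (q - cP f ζ) * (q - cP f ζ⁻¹) = (P - cP f (ζ + ζ⁻¹)) * q := by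
        have h5 : cP f ζ * cP f ζ⁻¹ = 1 := by
          rw [← map_mul, mul_inv_cancel₀ hζ0, map_one]
        rw [map_add]
        linear_combination hq + h5
      have h6 : v ((q - cP f ζ) * (q - cP f ζ⁻¹)) < 1 := by
        rw [h4, map_mul, hq1, mul_one]
        exact h1
      have h7 : ∀ w : K, w ^ k = 1 → v (q - cP f w) < 1 → v (q ^ k - 1) < 1 := by
        intro w hw hlt
        set t : L := ∑ i ∈ Finset.range k, q ^ i * cP f w ^ (k - 1 - i) with ht
        have ht1 : v t ≤ 1 := by
          refine Valuation.map_sum_le v fun i _ => ?_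
          rw [map_mul, map_pow, map_pow, hq1, one_pow, one_mul]
          exact pow_le_one' (val_cP f v hv _) _
        have h11 : q ^ k - 1 = (q - cP f w) * t := by
          rw [ht, (Commute.all q (cP f w)).mul_geom_sum₂ k, ← map_pow, hw, map_one]
        rw [h11, map_mul]
        exact mul_lt_one_of_lt_of_le hlt ht1
      have h12 : v (q ^ k - 1) < 1 := by
        rw [map_mul] at h6
        by_contra hcon
        have h13 : ¬ v (q - cP f ζ) < 1 := fun h => hcon (h7 ζ hζ h)
        have h14 : ¬ v (q - cP f ζ⁻¹) < 1 := fun h =>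
          hcon (h7 ζ⁻¹ (by rw [inv_pow, hζ, inv_one]) h)
        exact absurd h6 (not_lt.2 (one_le_mul (not_lt.1 h13) (not_lt.1 h14)))
      exact Pool.Agent.TH826.MK.mem_unitPart_of_pow v 0 a hk (by rw [ha0]; exact h12)
    · push Not at hB
      refine Submodule.subset_span ⟨a, fun i => ?_, rfl⟩
      fin_cases i
      · exact hq1
      · show v (a 1 : L) = 1
        rw [ha1, map_div₀, le_antisymm (hle m) (hB m), le_antisymm (hle l) (hB l), div_one]

theorem symb_mem_unramified (m l : Fin n)
    (hb : ∀ m : Fin n, ∃ (ζ : K) (k : ℕ), k ≠ 0 ∧ ζ ^ k = 1 ∧ F.eval (b m) = ζ + ζ⁻¹) :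
    KQ.map 2 f (symb (pent F b m l)) ∈ UnramifiedOver (f.comp (pcst F b)) 2 := by
  rw [KQ.map_symb]
  unfold UnramifiedOver
  simp only [Submodule.mem_iInf]
  intro v _ hv
  exact symb_mem_unitPart f v hv m l hb

end Unram

end Pool.Agent.TH826.HD
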