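import Pool.Agent.TH826.HD.Ring
import Pool.Agent.TH826.HD.Path
set_option autoImplicit false

/-!
Loops in the complex points of the curve `z + 1/z = F(x)`.
-/

namespace Pool.Agent.TH826.HD

open Polynomial

open Pool.Agent.TH826.MK (Torus symb pairing)

section Ev

variable {F : ℂ[X]} {n : ℕ} {b : Fin n → ℂ}

/-- the points of the open part of the curve -/
structure Pt (F : ℂ[X]) (b : Fin n → ℂ) (x z : ℂ) : Prop where
  eq : z ^ 2 - F.eval x * z + 1 = 0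
  ne : ∀ m, x ≠ b m

variable {x z : ℂ}

theorem Pt.eq' (h : Pt F b x z) : z ^ 2 - F.eval₂ (RingHom.id ℂ) x * z + 1 = 0 := h.eq

/-- evaluation of the regular functions on the curve -/
noncomputable def Pt.evB (h : Pt F b x z) : PRing F →+* ℂ := evP (RingHom.id ℂ) x z h.eq'

theorem Pt.evB_ppol (h : Pt F b x z) (p : ℂ[X]) : h.evB (ppol F p) = p.eval x :=
  evP_ppol _ _ _ h.eq' p

theorem Pt.evB_pz (h : Pt F b x z) : h.evB (pz F) = z := evP_pz _ _ _ h.eq'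

theorem Pt.evB_mk (h : Pt F b x z) (p : ℂ[X][X]) :
    h.evB (AdjoinRoot.mk (peqn F) p : AdjoinRoot (peqn F)) =
      p.eval₂ (Polynomial.eval₂RingHom (RingHom.id ℂ) x) z :=
  evP_mk _ _ _ h.eq' p

theorem Pt.evB_pDel (h : Pt F b x z) : h.evB (pDel F b) = ∏ m, (x - b m) := by
  unfold pDel
  rw [h.evB_ppol, Polynomial.eval_prod]
  simp

theorem Pt.evB_ne (h : Pt F b x z) : h.evB (pDel F b) ≠ 0 := by
  rw [h.evB_pDel]
  exact Finset.prod_ne_zero_iff.2 fun m _ => sub_ne_zero.2 (h.ne m)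

/-- evaluation of the regular functions on the open part -/
noncomputable def Pt.evA (h : Pt F b x z) : POpen F b →+* ℂ := liftP h.evB h.evB_ne

theorem Pt.evA_toP (h : Pt F b x z) (r : PRing F) : h.evA (toP F b r) = h.evB r :=
  liftP_toP _ _ _

theorem Pt.evA_congr {x' z' : ℂ} (h : Pt F b x z) (h' : Pt F b x' z') (e : x = x')
    (e' : z = z') : h.evA = h'.evA := by
  subst e
  subst e'
  rfl

theorem Pt.evA_pcst (h : Pt F b x z) (y : ℂ) : h.evA (pcst F b y) = y := by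
  show h.evA (toP F b (ppol F (C y))) = _
  rw [h.evA_toP, h.evB_ppol, Polynomial.eval_C]

theorem Pt.evA_uz (h : Pt F b x z) : h.evA (uz F b : POpen F b) = z := by
  rw [coe_uz, h.evA_toP, h.evB_pz]

theorem Pt.evA_ux (h : Pt F b x z) (m : Fin n) : h.evA (ux F b m : POpen F b) = x - b m := by
  rw [coe_ux, h.evA_toP, h.evB_ppol]
  simp

theorem contDiff_evA {d : ℕ} {X Z : (Fin d → ℝ) → ℂ} (hX : ContDiff ℝ 2 X)
    (hZ : ContDiff ℝ 2 Z) (hP : ∀ θ, Pt F b (X θ) (Z θ)) (h : POpen F b) :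
    ContDiff ℝ 2 fun θ => (hP θ).evA h := by
  have hpol : ∀ p : ℂ[X], ContDiff ℝ 2 fun θ => p.eval (X θ) := by
    intro p
    have e : (fun θ => p.eval (X θ)) = fun θ =>
        ∑ i ∈ Finset.range (p.natDegree + 1), p.coeff i * (X θ) ^ i := by
      funext θ
      rw [Polynomial.eval_eq_sum_range]
    rw [e]
    exact ContDiff.sum fun i _ => contDiff_const.mul (hX.pow i)
  have hB : ∀ r : PRing F, ContDiff ℝ 2 fun θ => (hP θ).evB r := by
    intro r
    obtain ⟨p, hp⟩ := AdjoinRoot.mk_surjective (g := peqn F) r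
    have e : (fun θ => (hP θ).evB r) = fun θ =>
        ∑ i ∈ Finset.range (p.natDegree + 1), (p.coeff i).eval (X θ) * (Z θ) ^ i := by
      funext θ
      rw [← hp, (hP θ).evB_mk, Polynomial.eval₂_eq_sum_range]
      rfl
    rw [e]
    exact ContDiff.sum fun i _ => (hpol _).mul (hZ.pow i)
  obtain ⟨p, hp⟩ := AdjoinRoot.mk_surjective (g := peqnO F b) h
  have e : (fun θ => (hP θ).evA h) = fun θ =>
      ∑ i ∈ Finset.range (p.natDegree + 1), (hP θ).evB (p.coeff i) *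
        ((hP θ).evB (pDel F b))⁻¹ ^ i := by
    funext θ
    rw [← hp]
    unfold Pt.evA
    rw [liftP_mk, Polynomial.eval₂_eq_sum_range]
  rw [e]
  exact ContDiff.sum fun i _ => (hB _).mul (((hB _).inv fun θ => (hP θ).evB_ne).pow i)

/-- A loop in the open part of the curve. -/
noncomputable def mkP {X Z : ℝ → ℂ} (hX : ContDiff ℝ 2 X) (hZ : ContDiff ℝ 2 Z)
    (hX1 : ∀ s, X (s + 1) = X s) (hZ1 : ∀ s, Z (s + 1) = Z s)
    (hP : ∀ s, Pt F b (X s) (Z s)) : Torus (POpen F b) 1 where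
  e θ := (hP (θ 0)).evA
  smooth h := contDiff_evA (X := fun θ => X (θ 0)) (Z := fun θ => Z (θ 0))
    (hX.comp (contDiff_apply ℝ ℝ 0)) (hZ.comp (contDiff_apply ℝ ℝ 0)) (fun θ => hP (θ 0)) h
  periodic θ i := by
    have h0 : (θ + Pi.single i 1 : Fin 1 → ℝ) 0 = θ 0 + 1 := by
      rw [Pi.add_apply, Subsingleton.elim i 0, Pi.single_eq_same]
    refine Pt.evA_congr _ _ ?_ ?_
    · rw [h0, hX1]
    · rw [h0, hZ1]

theorem mkP_e {X Z : ℝ → ℂ} (hX : ContDiff ℝ 2 X) (hZ : ContDiff ℝ 2 Z)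
    (hX1 : ∀ s, X (s + 1) = X s) (hZ1 : ∀ s, Z (s + 1) = Z s)
    (hP : ∀ s, Pt F b (X s) (Z s)) (θ : Fin 1 → ℝ) :
    (mkP hX hZ hX1 hZ1 hP).e θ = (hP (θ 0)).evA := rfl

/-- The regulator of the symbol `{z, (x - b_m) / (x - b_l)}` on a loop `(X, ε z)`, if
`(X - b_m) / (X - b_l) = exp h`. -/
theorem mkP_reg {X : ℝ → ℂ} {ε : ℂ} (hε : ‖ε‖ = 1) (hX : ContDiff ℝ 2 X)
    (hZ : ContDiff ℝ 2 fun s => ε * zl s) (hX1 : ∀ s, X (s + 1) = X s)
    (hZ1 : ∀ s, ε * zl (s + 1) = ε * zl s)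
    (hP : ∀ s, Pt F b (X s) (ε * zl s)) (m l : Fin n) {h : ℝ → ℂ} (hh : ContDiff ℝ 2 h)
    (heq : ∀ s, (X s - b m) / (X s - b l) = Complex.exp (h s)) :
    (mkP hX hZ hX1 hZ1 hP).reg (symb (pent F b m l)) =
      -(2 * Real.pi) * (∫ s in (0 : ℝ)..1, rho s * h s).re := by
  rw [Torus.reg_symb, ← pairing_loop hε hh]
  unfold Torus.pair
  congr 1
  funext i θ
  fin_cases i
  · show (hP (θ 0)).evA (uz F b : POpen F b) = ε * zl (θ 0)
    rw [Pt.evA_uz]
  · show (hP (θ 0)).evA ((ux F b m / ux F b l : (POpen F b)ˣ) : POpen F b) =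
      Complex.exp (h (θ 0))
    rw [← heq]
    have h1 : (hP (θ 0)).evA ((ux F b m / ux F b l : (POpen F b)ˣ) : POpen F b) *
        (hP (θ 0)).evA (ux F b l : POpen F b) = (hP (θ 0)).evA (ux F b m : POpen F b) := by
      rw [← map_mul, ← Units.val_mul, div_mul_cancel]
    rw [Pt.evA_ux, Pt.evA_ux] at h1
    rw [eq_div_iff (sub_ne_zero.2 ((hP (θ 0)).ne l))]
    exact h1

end Ev

end Pool.Agent.TH826.HD
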